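import Pool.Agent.Helper49T.Stm

/-!
# Piece AFF: a vector space over an uncountable field is not a countable union of proper affine
subspaces
-/

set_option autoImplicit false

namespace Pool.Agent.Helper49T

open Module

/-- AFF -/
theorem t_AFF : S_AFF := by
  intro k C U _ _ _ _ _ _ _ r a h hz
  classical
  let N := finrank k U
  let b := finBasis k U
  let z : k → U := fun t => ∑ i : Fin N, t ^ ((i : ℕ) + 1) • b i
  choose e he0 he using fun t => hz (z t)
  -- an infinite fibre
  have hinf : ∃ e₀ : Fin r → ℤ, (e ⁻¹' {e₀}).Infinite := by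
    by_contra hcon
    push Not at hcon
    have h1 : (Set.univ : Set k).Countable := by
      have h2 : (Set.univ : Set k) = ⋃ e₀ : Fin r → ℤ, e ⁻¹' {e₀} := by
        ext t
        simp
      rw [h2]
      exact Set.countable_iUnion fun e₀ => (hcon e₀).countable
    exact Set.not_countable_univ h1
  obtain ⟨e₀, hinf⟩ := hinf
  -- the polynomial
  let p : Polynomial C := Polynomial.C (∑ j, e₀ j • a j) +
    ∑ i : Fin N, Polynomial.C (∑ j, e₀ j • h j (b i)) * Polynomial.X ^ ((i : ℕ) + 1)
  have hev : ∀ t : k, p.eval (algebraMap k C t) = ∑ j, e₀ j • (a j + h j (z t)) := by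
    intro t
    simp only [p, z, Polynomial.eval_add, Polynomial.eval_C, Polynomial.eval_finsetSum,
      Polynomial.eval_mul, Polynomial.eval_pow, Polynomial.eval_X, smul_add,
      Finset.sum_add_distrib, map_sum, map_smul]
    congr 1
    simp only [Finset.smul_sum, Finset.sum_mul]
    rw [Finset.sum_comm]
    refine Finset.sum_congr rfl fun j _ => Finset.sum_congr rfl fun i _ => ?_
    rw [smul_mul_assoc, mul_comm (h j (b i)), ← map_pow, ← Algebra.smul_def]
  have hp : p = 0 := by
    refine Polynomial.eq_zero_of_infinite_isRoot p ?_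
    have h1 : (algebraMap k C '' (e ⁻¹' {e₀})).Infinite :=
      hinf.image (FaithfulSMul.algebraMap_injective k C).injOn
    refine h1.mono ?_
    rintro _ ⟨t, ht, rfl⟩
    have h2 : e t = e₀ := ht
    rw [Set.mem_ofPred_eq, Polynomial.IsRoot, hev t, ← h2]
    exact he t
  have hc0 : ∑ j, e₀ j • a j = 0 := by
    have h1 := congrArg (fun q => Polynomial.coeff q 0) hp
    simpa [p, Polynomial.finsetSum_coeff, Polynomial.coeff_C_mul, Polynomial.coeff_X_pow] using h1
  have hci : ∀ i : Fin N, ∑ j, e₀ j • h j (b i) = 0 := by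
    intro i
    have h1 := congrArg (fun q => Polynomial.coeff q ((i : ℕ) + 1)) hp
    simp only [p, Polynomial.coeff_add, Polynomial.coeff_C_succ, Polynomial.finsetSum_coeff,
      Polynomial.coeff_C_mul, Polynomial.coeff_X_pow, Polynomial.coeff_zero, zero_add] at h1
    rw [Finset.sum_eq_single i] at h1
    · simpa using h1
    · intro x _ hx
      rw [if_neg, mul_zero]
      intro h2
      apply hx
      apply Fin.ext
      omega
    · intro h2
      exact absurd (Finset.mem_univ i) h2
  refine ⟨e₀, ?_, hc0, fun z => ?_⟩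
  · obtain ⟨t, ht⟩ := hinf.nonempty
    have h2 : e t = e₀ := ht
    rw [← h2]
    exact he0 t
  · have h1 : ∀ j, h j z = ∑ i, (b.repr z i) • h j (b i) := by
      intro j
      conv_lhs => rw [← b.sum_repr z]
      rw [map_sum]
      exact Finset.sum_congr rfl fun i _ => map_smul _ _ _
    simp only [h1, Finset.smul_sum]
    rw [Finset.sum_comm]
    refine Finset.sum_eq_zero fun i _ => ?_
    have h2 : ∀ j, e₀ j • (b.repr z i) • h j (b i) = (b.repr z i) • e₀ j • h j (b i) :=
      fun j => smul_comm _ _ _
    rw [Finset.sum_congr rfl fun j _ => h2 j, ← Finset.smul_sum, hci i, smul_zero]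

end Pool.Agent.Helper49T
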