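import Pool.Agent.Helper49T.Stm

set_option autoImplicit false

namespace Pool.Agent.Helper49T

open Module Pool.Agent.Y114.RM

namespace DEC

variable {k V : Type} [Field k] [AddCommGroup V] [Module k V]

/-- the centre of `L` -/
def zc (L : Submodule k (End k V)) : Submodule k (End k V) where
  carrier := {Z | Z ∈ L ∧ ∀ Y ∈ L, Z * Y = Y * Z}
  add_mem' := by
    rintro a b ⟨ha, ha'⟩ ⟨hb, hb'⟩
    exact ⟨L.add_mem ha hb, fun Y hY => by rw [mul_add, add_mul, ha' Y hY, hb' Y hY]⟩
  zero_mem' := ⟨L.zero_mem, fun Y _ => by rw [mul_zero, zero_mul]⟩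
  smul_mem' := by
    rintro c a ⟨ha, ha'⟩
    exact ⟨L.smul_mem c ha, fun Y hY => by rw [mul_smul_comm, smul_mul_assoc, ha' Y hY]⟩

/-- the trace form -/
noncomputable def phi (L : Submodule k (End k V)) : L →ₗ[k] Dual k L where
  toFun B :=
    { toFun := fun Y => LinearMap.trace k V (B.1 * Y.1)
      map_add' := fun Y Y' => by rw [Submodule.coe_add, mul_add, map_add]
      map_smul' := fun c Y => by
        rw [Submodule.coe_smul, mul_smul_comm, map_smul, RingHom.id_apply] }
  map_add' B B' := by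
    refine LinearMap.ext fun Y => ?_
    change LinearMap.trace k V ((B + B').1 * Y.1) =
      LinearMap.trace k V (B.1 * Y.1) + LinearMap.trace k V (B'.1 * Y.1)
    rw [Submodule.coe_add, add_mul, map_add]
  map_smul' c B := by
    refine LinearMap.ext fun Y => ?_
    change LinearMap.trace k V ((c • B).1 * Y.1) = c • LinearMap.trace k V (B.1 * Y.1)
    rw [Submodule.coe_smul, smul_mul_assoc, map_smul]

end DEC

theorem t_DEC : S_DEC := by
  intro k V _ _ _ _ L hL hN hZ X hX
  set D : Submodule k (End k V) :=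
    Submodule.span k {T : End k V | ∃ A ∈ L, ∃ B ∈ L, T = A * B - B * A} with hD
  by_contra hcon
  have hXp : X ∉ D ⊔ DEC.zc L := by
    intro h
    obtain ⟨T, hT, Z, hZm, rfl⟩ := Submodule.mem_sup.1 h
    exact hcon ⟨Z, hZm.1, hZm.2, by simpa using hT⟩
  obtain ⟨f, hf, hle⟩ := Submodule.exists_le_ker_of_notMem hXp
  have hfD : ∀ T ∈ D, f T = 0 := fun T hT =>
    LinearMap.mem_ker.1 (hle (Submodule.mem_sup_left hT))
  have hfZ : ∀ T ∈ DEC.zc L, f T = 0 := fun T hT =>
    LinearMap.mem_ker.1 (hle (Submodule.mem_sup_right hT))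
  have hinj : Function.Injective (DEC.phi L) := by
    rw [injective_iff_map_eq_zero]
    intro B hB
    have : B.1 = 0 := by
      refine hN B.1 B.2 fun Y hY => ?_
      have := LinearMap.congr_fun hB ⟨Y, hY⟩
      exact this
    exact Subtype.ext this
  have hsur : Function.Surjective (DEC.phi L) :=
    (LinearMap.injective_iff_surjective_of_finrank_eq_finrank
      (Subspace.dual_finrank_eq (K := k) (V := L)).symm).1 hinj
  obtain ⟨B, hB⟩ := hsur (f ∘ₗ L.subtype)
  have hBf : ∀ Y ∈ L, LinearMap.trace k V (B.1 * Y) = f Y := by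
    intro Y hY
    exact LinearMap.congr_fun hB ⟨Y, hY⟩
  have hcen : ∀ X' ∈ L, B.1 * X' = X' * B.1 := by
    intro X' hX'
    have h0 : B.1 * X' - X' * B.1 = 0 := by
      refine hN _ (hL B.1 B.2 X' hX') fun Y hY => ?_
      have e1 : LinearMap.trace k V (X' * B.1 * Y) = LinearMap.trace k V (B.1 * (Y * X')) := by
        rw [mul_assoc, LinearMap.trace_mul_comm, mul_assoc]
      rw [sub_mul, map_sub, e1, mul_assoc, ← map_sub, ← mul_sub, hBf _ (hL X' hX' Y hY)]
      exact hfD _ (Submodule.subset_span ⟨X', hX', Y, hY, rfl⟩)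
    exact sub_eq_zero.1 h0
  have hB0 : B.1 = 0 := by
    refine hZ B.1 B.2 hcen fun Y hY hYc => ?_
    rw [hBf Y hY]
    exact hfZ Y ⟨hY, hYc⟩
  refine hf ?_
  rw [← hBf X hX, hB0, zero_mul, map_zero]

end Pool.Agent.Helper49T
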