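import Pool.Agent.Helper49C.Fixed

/-!
# Endomorphisms over finite extensions, relative to a subgroup of finite index
-/

set_option autoImplicit false
set_option linter.unusedSectionVars false

namespace Pool.Agent.Helper49T

open NumberField IsDedekindDomain Module Polynomial Pool.Agent.Y114.RM
  Pool.Agent.Y114.TF Pool.Agent.Y114.GF Pool.Agent.Y114.MU Pool.Agent.H204R3.GP
  Pool.Agent.R931.IR Pool.Agent.W571.FM Pool.Agent.Helper49A Pool.Agent.Helper49C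

section main

variable {K : Type} [Field K] [NumberField K] {ι : Type} [Fintype ι] {n : ι → ℕ}
  {w : ι → ℤ} {ℓ ℓ₀ : ℕ} [hℓ : Fact ℓ.Prime] [hℓ₀ : Fact ℓ₀.Prime]

/-- The Zariski closure of the image of `Δ₀` is connected. -/
def ConnectedOn {Γ : Type} [Group Γ] (Δ₀ : Subgroup Γ) (ρ : Reps Γ n ℓ) : Prop :=
  ∀ Δ : Subgroup Γ, Δ ≤ Δ₀ → Δ.FiniteIndex →
    ∀ f : MvPolynomial (Σ i, Fin (n i) × Fin (n i)) ℚ_[ℓ],
    (∀ γ ∈ Δ, MvPolynomial.eval (entries ρ γ) f = 0) →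
      ∀ γ ∈ Δ₀, MvPolynomial.eval (entries ρ γ) f = 0

/-- If the Zariski closure of the image of `Δ₀` at `ℓ₀` is connected, the homomorphisms at `ℓ` which
commute with a subgroup of finite index commute with `Δ₀`. -/
theorem block_commutes' (Δ₀ : Subgroup Gal(AlgebraicClosure K/K)) (hΔ₀ : Δ₀.FiniteIndex) (ρ : Reps Gal(AlgebraicClosure K/K) n ℓ) (hρ : Conts ρ)
    (ρ₀ : Reps Gal(AlgebraicClosure K/K) n ℓ₀) (hρ₀ : Conts ρ₀)
    (S : Set (HeightOneSpectrum (𝓞 K))) (hS : S.Finite) (P : HeightOneSpectrum (𝓞 K) → ι → ℚ[X])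
    (hP : ∀ v ∉ S, ¬ Above v ℓ → ∀ i, GoodReduction ρ i (w i) v (P v i))
    (hP₀ : ∀ v ∉ S, ¬ Above v ℓ₀ → ∀ i, GoodReduction ρ₀ i (w i) v (P v i))
    (hconn : ConnectedOn Δ₀ ρ₀) (i i' : ι) (Z : Matrix (Fin (n i)) (Fin (n i')) ℚ_[ℓ])
    (hZ : (fx (ρ i) (ρ i') Z).FiniteIndex) : Δ₀ ≤ fx (ρ i) (ρ i') Z := by
  classical
  by_contra hne
  obtain ⟨σ, hσ₀, hσ⟩ := Set.not_subset.1 hne
  have hcl : IsClosed (fx (ρ i) (ρ i') Z : Set Gal(AlgebraicClosure K/K)) := by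
    have h1 : (fx (ρ i) (ρ i') Z : Set Gal(AlgebraicClosure K/K)) =
        {γ | mx (ρ i) γ * Z = Z * mx (ρ i') γ} := by
      ext γ
      exact cj_eq_iff _ _ _ _
    rw [h1]
    exact isClosed_eq ((continuous_mx (hρ i)).matrix_mul continuous_const)
      (continuous_const.matrix_mul (continuous_mx (hρ i')))
  set N : Subgroup Gal(AlgebraicClosure K/K) := (fx (ρ i) (ρ i') Z).normalCore with hN
  have hNn : N.Normal := inferInstance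
  have hNf : N.FiniteIndex := inferInstance
  have hNo : IsOpen (N : Set Gal(AlgebraicClosure K/K)) :=
    Subgroup.isOpen_of_isClosed_of_finiteIndex _ (Subgroup.normalCore_isClosed _ hcl)
  obtain ⟨M, D, hM, hD, hrel⟩ := exists_relation (ρ i) (ρ i') hNf
    (fun δ hδ => Subgroup.normalCore_le _ hδ) (σ := σ) hσ
  obtain ⟨alg⟩ := exists_ringHom ℓ
  obtain ⟨alg₀⟩ := exists_ringHom ℓ₀
  have hchar : ∀ {ℓ : ℕ} [Fact ℓ.Prime] {a : ℕ} (A : End ℚ_[ℓ] (Fin a → ℚ_[ℓ])),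
      (LinearMap.toMatrix' A).charpoly = A.charpoly := by
    intro ℓ _ a A
    rw [← LinearMap.toMatrix_eq_toMatrix', LinearMap.charpoly_toMatrix]
  -- the determinants at `ℓ₀` are zero
  have hdet : ∀ δ ∈ N, (kr M (mx (ρ₀ i) (σ * δ)) (mx (ρ₀ i') (σ * δ))).det = 0 := by
    intro δ hδ
    by_contra hne
    let O : Set Gal(AlgebraicClosure K/K) := {g | σ⁻¹ * g ∈ N} ∩
      {g | (kr M (mx (ρ₀ i) g) (mx (ρ₀ i') g)).det ≠ 0}
    have hO : IsOpen O := (hNo.preimage (continuous_const_mul σ⁻¹)).inter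
      (isOpen_ne_fun (continuous_det_kr M (hρ₀ i) (hρ₀ i')) continuous_const)
    obtain ⟨v, hv, φ, ⟨Q, hQ, hQv, hφ⟩, hφO⟩ := Pool.Agent.Y405.ZO.t K O hO
      ⟨σ * δ, by
        show σ⁻¹ * (σ * δ) ∈ N
        rwa [inv_mul_cancel_left], hne⟩
      (S ∪ {v | Above v ℓ} ∪ {v | Above v ℓ₀})
      ((hS.union (finite_aboveK K ℓ hℓ.out)).union (finite_aboveK K ℓ₀ hℓ₀.out))
    have hvS : v ∉ S := fun h' => hv (Or.inl (Or.inl h'))
    have hvℓ : ¬ Above v ℓ := fun h' => hv (Or.inl (Or.inr h'))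
    have hvℓ₀ : ¬ Above v ℓ₀ := fun h' => hv (Or.inr h')
    have hc : ∀ i, (mx (ρ i) φ⁻¹).charpoly = (P v i).map (algebraMap ℚ ℚ_[ℓ]) := fun i =>
      (hchar _).trans (((hP v hvS hvℓ i).2 Q ⟨hQ.isPrime, hQv⟩ φ).2 hφ)
    have hc₀ : ∀ i, (mx (ρ₀ i) φ⁻¹).charpoly = (P v i).map (algebraMap ℚ ℚ_[ℓ₀]) := fun i =>
      (hchar _).trans (((hP₀ v hvS hvℓ₀ i).2 Q ⟨hQ.isPrime, hQv⟩ φ).2 hφ)
    have h1 := hrel (σ⁻¹ * φ⁻¹) hφO.1
    rw [mul_inv_cancel_left] at h1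
    obtain ⟨z, z', hz, hz', h2⟩ := eigen_of_relation alg hD h1 (hc i) (hc i')
    exact hφO.2 (det_of_eigen alg₀ (hc₀ i) (hc₀ i') hz hz' h2)
  obtain ⟨f, hf⟩ := exists_poly ρ₀ M i i' σ
  have h1 := hconn (N ⊓ Δ₀) inf_le_right inferInstance f
    (fun δ hδ => (hf δ).trans (hdet δ hδ.1)) σ⁻¹ (Δ₀.inv_mem hσ₀)
  rw [hf, mul_inv_cancel, mx_one, mx_one] at h1
  exact det_kr_one hM h1


variable [DecidableEq ι]

/-- The endomorphisms at `ℓ` which commute with a subgroup of finite index commute with `Δ₀`. -/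
theorem endos_fixed' (Δ₀ : Subgroup Gal(AlgebraicClosure K/K)) (hΔ₀ : Δ₀.FiniteIndex)
    (ρ : Reps Gal(AlgebraicClosure K/K) n ℓ) (hρ : Conts ρ)
    (ρ₀ : Reps Gal(AlgebraicClosure K/K) n ℓ₀) (hρ₀ : Conts ρ₀)
    (S : Set (HeightOneSpectrum (𝓞 K))) (hS : S.Finite) (P : HeightOneSpectrum (𝓞 K) → ι → ℚ[X])
    (hP : ∀ v ∉ S, ¬ Above v ℓ → ∀ i, GoodReduction ρ i (w i) v (P v i))
    (hP₀ : ∀ v ∉ S, ¬ Above v ℓ₀ → ∀ i, GoodReduction ρ₀ i (w i) v (P v i))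
    (hconn : ConnectedOn Δ₀ ρ₀) {Y : End ℚ_[ℓ] (∀ i, Fin (n i) → ℚ_[ℓ])}
    (hY : Y ∈ tateEnd (sumRep ρ)) (γ : Gal(AlgebraicClosure K/K)) (hγ : γ ∈ Δ₀) :
    sumRep ρ γ * Y = Y * sumRep ρ γ := by
  obtain ⟨Δ, hΔ, hΔY⟩ := hY
  refine (commutes_iff (k := ℚ_[ℓ]) ρ).2 fun i i' => ?_
  have h1 : Δ ≤ fx (ρ i) (ρ i') (bm Y i i') := fun δ hδ =>
    (commutes_iff (k := ℚ_[ℓ]) ρ).1 (hΔY δ hδ) i i'
  have h2 : (fx (ρ i) (ρ i') (bm Y i i')).FiniteIndex := Subgroup.finiteIndex_of_le h1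
  exact block_commutes' Δ₀ hΔ₀ ρ hρ ρ₀ hρ₀ S hS P hP hP₀ hconn i i' _ h2 hγ

end main

end Pool.Agent.Helper49T
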