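import Pool.Agent.Helper49T.Stm

/-!
# Elements with independent eigenvalues in a large subalgebra
-/

set_option autoImplicit false
set_option linter.unusedSectionVars false

namespace Pool.Agent.Helper49T

open Module Pool.Agent.Y114.RM Polynomial

noncomputable section

section wt

variable {k C W G : Type} [Field k] [Field C] [Algebra k C] [AddCommGroup W] [Module k W]
  {t : G → End k W}

theorem wt_zero (t : G → End k W) : Wt t (fun _ => (0 : C)) := by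
  refine ⟨0, MultilinearMap.constOfIsEmpty k (fun _ : Fin 0 => W) (1 : C), fun h => ?_,
    fun g v => ?_⟩
  · have h1 := congrArg (fun δ => δ (fun i : Fin 0 => i.elim0)) h
    exact one_ne_zero (α := C) h1
  · rw [Finset.univ_eq_empty, Finset.sum_empty, zero_mul]

theorem wt_nsmul (hW : S_WADD) {c : G → C} (h : Wt t c) (n : ℕ) :
    Wt t (fun g => (n : C) * c g) := by
  induction n with
  | zero =>
    have h1 : (fun g => ((0 : ℕ) : C) * c g) = fun _ => 0 := by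
      funext g
      rw [Nat.cast_zero, zero_mul]
    rw [h1]
    exact wt_zero t
  | succ n ih =>
    have h1 : (fun g => ((n + 1 : ℕ) : C) * c g) = fun g => (n : C) * c g + c g := by
      funext g
      rw [Nat.cast_succ, add_mul, one_mul]
    rw [h1]
    exact hW k C W G t _ _ ih h

theorem wt_sum (hW : S_WADD) {ι : Type} (s : Finset ι) (c : ι → G → C)
    (h : ∀ i, Wt t (c i)) : Wt t (fun g => ∑ i ∈ s, c i g) := by
  classical
  induction s using Finset.induction_on with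
  | empty =>
    have h1 : (fun g => ∑ i ∈ (∅ : Finset ι), c i g) = fun _ => 0 := by
      funext g
      rw [Finset.sum_empty]
    rw [h1]
    exact wt_zero t
  | insert i s hi ih =>
    have h1 : (fun g => ∑ i ∈ insert i s, c i g) = fun g => c i g + ∑ i ∈ s, c i g := by
      funext g
      rw [Finset.sum_insert hi]
    rw [h1]
    exact hW k C W G t _ _ (h i) ih

end wt

section lin

variable {k C V : Type} [Field k] [Field C] [Algebra k C] [AddCommGroup V] [Module k V]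

theorem lie_apply (X : End k V) (w : V × Dual k V) : lie X w = (X w.1, -(w.2 ∘ₗ X)) := rfl

theorem lie_add' (X Y : End k V) : lie (X + Y) = lie X + lie Y := by
  refine LinearMap.ext fun w => Prod.ext rfl ?_
  refine LinearMap.ext fun v => ?_
  change -(w.2 (X v + Y v)) = -(w.2 (X v)) + -(w.2 (Y v))
  rw [map_add, neg_add]

theorem lie_smul' (a : k) (X : End k V) : lie (a • X) = a • lie X := by
  refine LinearMap.ext fun w => Prod.ext rfl ?_
  refine LinearMap.ext fun v => ?_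
  change -(w.2 (a • X v)) = a • -(w.2 (X v))
  rw [map_smul, smul_neg]

theorem lie_bracket (X Y : End k V) : lie (X * Y - Y * X) = lie X * lie Y - lie Y * lie X := by
  refine LinearMap.ext fun w => Prod.ext rfl ?_
  refine LinearMap.ext fun v => ?_
  change -(w.2 (X (Y v) - Y (X v))) = -(-(w.2 (Y (X v)))) - -(-(w.2 (X (Y v))))
  rw [map_sub]
  ring

theorem lie_comm {X Y : End k V} (h : X * Y = Y * X) : lie X * lie Y = lie Y * lie X := by
  have h1 := lie_bracket X Y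
  have h2 : lie (X * Y - Y * X) = 0 := by
    rw [h, sub_self]
    refine LinearMap.ext fun w => Prod.ext rfl ?_
    refine LinearMap.ext fun v => ?_
    change -(w.2 0) = 0
    rw [map_zero, neg_zero]
  rw [h2] at h1
  exact (sub_eq_zero.1 h1.symm)

/-- The functionals on the sum of `V` and its dual space on which `Z` acts by `θ`. -/
def Nsp {Z' : Submodule k (End k V)} (θ : Z' → C) : Submodule C ((V × Dual k V) →ₗ[k] C) where
  carrier := {F | ∀ (Z : Z') w, F (lie Z.1 w) = θ Z * F w}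
  zero_mem' := fun Z w => by
    rw [LinearMap.zero_apply, LinearMap.zero_apply, mul_zero]
  add_mem' := fun {F F'} hF hF' Z w => by
    rw [LinearMap.add_apply, LinearMap.add_apply, hF Z w, hF' Z w, mul_add]
  smul_mem' := fun a F hF Z w => by
    rw [LinearMap.smul_apply, LinearMap.smul_apply, hF Z w, smul_eq_mul, smul_eq_mul]
    ring

variable {𝔤 Z' : Submodule k (End k V)} {θ : Z' → C}

/-- The action on these functionals. -/
def tau (hc : ∀ X ∈ 𝔤, ∀ Z ∈ Z', Z * X = X * Z) (X : 𝔤) : End C (Nsp θ) where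
  toFun F := ⟨F.1 ∘ₗ lie X.1, fun Z w => by
    have h1 : lie X.1 (lie Z.1 w) = lie Z.1 (lie X.1 w) :=
      LinearMap.congr_fun (lie_comm (hc X.1 X.2 Z.1 Z.2).symm) w
    rw [LinearMap.comp_apply, LinearMap.comp_apply, h1]
    exact F.2 Z _⟩
  map_add' F F' := rfl
  map_smul' a F := rfl

theorem tau_coe (hc : ∀ X ∈ 𝔤, ∀ Z ∈ Z', Z * X = X * Z) (X : 𝔤) (F : Nsp θ) :
    ((tau hc X F : Nsp θ) : (V × Dual k V) →ₗ[k] C) = F.1 ∘ₗ lie X.1 := rfl

/-- The trace of `X`. -/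
def ch (hc : ∀ X ∈ 𝔤, ∀ Z ∈ Z', Z * X = X * Z) (θ : Z' → C) (X : 𝔤) : C :=
  LinearMap.trace C (Nsp θ) (tau hc X)

theorem tau_add (hc : ∀ X ∈ 𝔤, ∀ Z ∈ Z', Z * X = X * Z) (X Y : 𝔤) :
    tau (θ := θ) hc (X + Y) = tau hc X + tau hc Y := by
  refine LinearMap.ext fun F => Subtype.ext (LinearMap.ext fun w => ?_)
  change F.1 (lie (X.1 + Y.1) w) = F.1 (lie X.1 w) + F.1 (lie Y.1 w)
  rw [lie_add', LinearMap.add_apply, map_add]

theorem ch_add (hc : ∀ X ∈ 𝔤, ∀ Z ∈ Z', Z * X = X * Z) (X Y : 𝔤) :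
    ch hc θ (X + Y) = ch hc θ X + ch hc θ Y := by
  unfold ch
  rw [tau_add, map_add]

/-- The trace, as an additive map. -/
def chA (hc : ∀ X ∈ 𝔤, ∀ Z ∈ Z', Z * X = X * Z) (θ : Z' → C) : 𝔤 →+ C where
  toFun := ch hc θ
  map_zero' := by
    have h := ch_add (θ := θ) hc 0 0
    rw [add_zero] at h
    exact left_eq_add.1 h
  map_add' := ch_add hc

theorem ch_bracket (hlie : IsLie 𝔤) (hc : ∀ X ∈ 𝔤, ∀ Z ∈ Z', Z * X = X * Z) {X Y : End k V}
    (hX : X ∈ 𝔤) (hY : Y ∈ 𝔤) (hXY : X * Y - Y * X ∈ 𝔤) : ch hc θ ⟨X * Y - Y * X, hXY⟩ = 0 := by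
  have h1 : tau (θ := θ) hc ⟨X * Y - Y * X, hXY⟩ +
      tau (θ := θ) hc ⟨X, hX⟩ * tau (θ := θ) hc ⟨Y, hY⟩ =
      tau (θ := θ) hc ⟨Y, hY⟩ * tau (θ := θ) hc ⟨X, hX⟩ := by
    refine LinearMap.ext fun F => Subtype.ext (LinearMap.ext fun w => ?_)
    change F.1 (lie (X * Y - Y * X) w) + F.1 (lie Y (lie X w)) = F.1 (lie X (lie Y w))
    rw [lie_bracket, LinearMap.sub_apply, map_sub, Module.End.mul_apply, Module.End.mul_apply,
      sub_add_cancel]
  have h2 := congrArg (LinearMap.trace C (Nsp θ)) h1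
  rw [map_add, LinearMap.trace_mul_comm C (tau (θ := θ) hc ⟨X, hX⟩)] at h2
  exact add_eq_right.1 h2

theorem trace_scalar {C N : Type} [Field C] [AddCommGroup N] [Module C N] [FiniteDimensional C N]
    (a : C) (T : End C N) (h : ∀ x, T x = a • x) :
    LinearMap.trace C N T = a * (finrank C N : C) := by
  have h1 : T = a • (1 : End C N) := LinearMap.ext h
  rw [h1, map_smul, LinearMap.trace_one, smul_eq_mul]

instance finN [FiniteDimensional k V] (θ : Z' → C) : FiniteDimensional C (Nsp θ) := by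
  have h1 : FiniteDimensional C ((V × Dual k V) →ₗ[k] C) := inferInstance
  exact FiniteDimensional.finiteDimensional_submodule _

theorem ch_central [FiniteDimensional k V] (hc : ∀ X ∈ 𝔤, ∀ Z ∈ Z', Z * X = X * Z) (Z : Z')
    (hZ : Z.1 ∈ 𝔤) : ch hc θ ⟨Z.1, hZ⟩ = θ Z * finrank C (Nsp θ) :=
  trace_scalar (N := Nsp θ) (θ Z) (tau (θ := θ) hc ⟨Z.1, hZ⟩) fun F : Nsp θ =>
    Subtype.ext (LinearMap.ext fun w => F.2 Z w)

theorem ch_span (hlie : IsLie 𝔤) (hc : ∀ X ∈ 𝔤, ∀ Z ∈ Z', Z * X = X * Z) {X : End k V}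
    (hX : X ∈ Submodule.span k {T : End k V | ∃ A ∈ 𝔤, ∃ B ∈ 𝔤, T = A * B - B * A}) :
    ∃ hX' : X ∈ 𝔤, ch hc θ ⟨X, hX'⟩ = 0 := by
  induction hX using Submodule.span_induction with
  | mem X hX =>
    obtain ⟨A, hA, B, hB, rfl⟩ := hX
    exact ⟨hlie A hA B hB, ch_bracket hlie hc hA hB _⟩
  | zero => exact ⟨𝔤.zero_mem, (chA hc θ).map_zero⟩
  | add X Y _ _ hX hY =>
    obtain ⟨hX', hX⟩ := hX
    obtain ⟨hY', hY⟩ := hY
    refine ⟨𝔤.add_mem hX' hY', ?_⟩
    have h1 := ch_add (θ := θ) hc ⟨X, hX'⟩ ⟨Y, hY'⟩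
    rw [hX, hY, add_zero] at h1
    exact h1
  | smul a X _ hX =>
    obtain ⟨hX', hX⟩ := hX
    refine ⟨𝔤.smul_mem a hX', ?_⟩
    have h1 : tau (θ := θ) hc ⟨a • X, 𝔤.smul_mem a hX'⟩ = algebraMap k C a • tau hc ⟨X, hX'⟩ := by
      refine LinearMap.ext fun F => Subtype.ext (LinearMap.ext fun w => ?_)
      change F.1 (lie (a • X) w) = algebraMap k C a * F.1 (lie X w)
      rw [lie_smul', LinearMap.smul_apply, map_smul, Algebra.smul_def]
    have h2 : LinearMap.trace C (Nsp θ) (tau hc ⟨X, hX'⟩) = 0 := hX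
    unfold ch
    rw [h1, map_smul, h2, smul_zero]

theorem root_of_functional [FiniteDimensional k V] {X : End k V} {f : V →ₗ[k] C} {y : C}
    (hf : f ≠ 0) (h : ∀ v, f (X v) = y * f v) : aeval y X.charpoly = 0 := by
  obtain ⟨v, hv⟩ : ∃ v, f v ≠ 0 := by
    by_contra hcon
    push Not at hcon
    exact hf (LinearMap.ext hcon)
  have h1 : ∀ (n : ℕ) (u : V), f ((X ^ n) u) = y ^ n * f u := by
    intro n
    induction n with
    | zero => intro u; rw [pow_zero, pow_zero, one_mul]; rfl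
    | succ n ih =>
      intro u
      rw [pow_succ', Module.End.mul_apply, h, ih, pow_succ']
      ring
  have h2 : ∀ (p : k[X]) (u : V), f (aeval X p u) = aeval y p * f u := by
    intro p u
    induction p using Polynomial.induction_on' with
    | add p q hp hq => rw [map_add, map_add, LinearMap.add_apply, map_add, hp, hq, add_mul]
    | monomial n a =>
      rw [aeval_monomial, aeval_monomial, Module.End.mul_apply,
        Module.algebraMap_end_apply, map_smul, h1, Algebra.smul_def, mul_assoc]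
  have h3 := h2 X.charpoly v
  rw [LinearMap.aeval_self_charpoly, LinearMap.zero_apply, map_zero] at h3
  rcases mul_eq_zero.1 h3.symm with h4 | h4
  · exact h4
  · exact absurd h4 hv

end lin

section main

variable {k C V : Type} [Field k] [CharZero k] [Uncountable k] [Field C] [CharZero C]
  [IsAlgClosed C] [Algebra k C] [AddCommGroup V] [Module k V] [FiniteDimensional k V]

/-- The centre. -/
def cent (𝔤 : Submodule k (End k V)) : Submodule k (End k V) where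
  carrier := {Z | Z ∈ 𝔤 ∧ ∀ Y ∈ 𝔤, Z * Y = Y * Z}
  zero_mem' := ⟨𝔤.zero_mem, fun Y _ => by rw [zero_mul, mul_zero]⟩
  add_mem' := fun {a b} ha hb => ⟨𝔤.add_mem ha.1 hb.1, fun Y hY => by
    rw [add_mul, mul_add, ha.2 Y hY, hb.2 Y hY]⟩
  smul_mem' := fun c a ha => ⟨𝔤.smul_mem c ha.1, fun Y hY => by
    rw [smul_mul_assoc, mul_smul_comm, ha.2 Y hY]⟩

/-- A character of the centre with integer coefficients which vanishes on the subalgebra vanishes. -/
theorem char_zero (hW : S_WADD) (hD : S_WDET) (hR : S_RIGHT) (hDec : S_DEC)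
    {𝔤 𝔩 : Submodule k (End k V)} (hle : 𝔩 ≤ 𝔤) (hlie : IsLie 𝔤) (hlie' : IsLie 𝔩)
    (hnd : NonDeg 𝔤)
    (hcen : ∀ B ∈ 𝔤, (∀ X ∈ 𝔤, B * X = X * B) →
      (∀ Y ∈ 𝔤, (∀ X ∈ 𝔤, Y * X = X * Y) → LinearMap.trace k V (B * Y) = 0) → B = 0)
    (hsplit : ∀ X ∈ 𝔤, ∃ A ∈ 𝔩, ∀ Y ∈ 𝔤, (X - A) * Y = Y * (X - A))
    (hT : ∀ (m : ℕ) (φ : Tensor k V m), (∀ X ∈ 𝔩, KillsTensor X φ) → ∀ X ∈ 𝔤, KillsTensor X φ)
    {r : ℕ} (f : Fin r → (V →ₗ[k] C)) (hf : ∀ j, f j ≠ 0) (ζ : Fin r → (cent 𝔤 →ₗ[k] C))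
    (hζ : ∀ j (Z : cent 𝔤) (v : V), f j (Z.1 v) = ζ j Z * f j v) (e : Fin r → ℤ)
    (he : ∀ Z : cent 𝔤, Z.1 ∈ 𝔩 → ∑ j, e j • ζ j Z = 0) (Z₁ : cent 𝔤) :
    ∑ j, e j • ζ j Z₁ = 0 := by
  classical
  have hc : ∀ X ∈ 𝔤, ∀ Z ∈ cent 𝔤, Z * X = X * Z := fun X hX Z hZ => hZ.2 X hX
  -- the characters
  let θ : Fin r → (cent 𝔤 → C) := fun j Z => if 0 ≤ e j then ζ j Z else -ζ j Z
  have hne : ∀ j, ∃ F : Nsp (θ j), F ≠ 0 := by
    intro j
    by_cases hj : 0 ≤ e j
    · let F : (V × Dual k V) →ₗ[k] C := f j ∘ₗ LinearMap.fst k V (Dual k V)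
      have hF : F ∈ Nsp (θ j) := by
        intro Z w
        have h1 : θ j Z = ζ j Z := if_pos hj
        rw [h1]
        exact hζ j Z w.1
      refine ⟨⟨F, hF⟩, fun h => hf j (LinearMap.ext fun v => ?_)⟩
      have h2 := congrArg (fun F : Nsp (θ j) => F.1 (v, 0)) h
      exact h2
    · obtain ⟨u, hu, hu'⟩ := hR k C V (cent 𝔤) (fun Z hZ Y hY => hZ.2 Y hY.1) (f j)
        (fun Z => ζ j Z) (hf j) (hζ j)
      let F : (V × Dual k V) →ₗ[k] C := u ∘ₗ LinearMap.snd k V (Dual k V)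
      have hF : F ∈ Nsp (θ j) := by
        intro Z w
        have h1 : θ j Z = -ζ j Z := if_neg hj
        rw [h1]
        change u (-(w.2 ∘ₗ Z.1)) = -ζ j Z * u w.2
        rw [map_neg, hu', neg_mul]
      refine ⟨⟨F, hF⟩, fun h => hu (LinearMap.ext fun ξ => ?_)⟩
      have h2 := congrArg (fun F : Nsp (θ j) => F.1 (0, ξ)) h
      exact h2
  let d : Fin r → ℕ := fun j => finrank C (Nsp (θ j))
  have hd : ∀ j, d j ≠ 0 := by
    intro j h0
    obtain ⟨F, hF⟩ := hne j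
    have h1 : Subsingleton (Nsp (θ j)) := finrank_zero_iff.1 h0
    exact hF (Subsingleton.elim _ _)
  let D : ℕ := ∏ j, d j
  have hD0 : D ≠ 0 := Finset.prod_ne_zero_iff.2 fun j _ => hd j
  have hdD : ∀ j, D / d j * d j = D := fun j =>
    Nat.div_mul_cancel (Finset.dvd_prod_of_mem d (Finset.mem_univ j))
  -- the weight
  let c : 𝔤 → C := fun X => ∑ j, (((e j).natAbs * (D / d j) : ℕ) : C) * ch hc (θ j) X
  have hcW : Wt (fun X : 𝔤 => lie X.1) c := wt_sum hW Finset.univ _ fun j =>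
    wt_nsmul hW (hD k C (V × Dual k V) 𝔤 (fun X => lie X.1) (Nsp (θ j)) (fun X => tau hc X)
      fun X F => rfl) _
  have hcZ : ∀ (Z : cent 𝔤), c ⟨Z.1, Z.2.1⟩ = (D : C) * ∑ j, e j • ζ j Z := by
    intro Z
    change ∑ j, (((e j).natAbs * (D / d j) : ℕ) : C) * ch hc (θ j) ⟨Z.1, Z.2.1⟩ = _
    rw [Finset.mul_sum]
    refine Finset.sum_congr rfl fun j _ => ?_
    rw [ch_central hc Z Z.2.1]
    have h1 : (((D / d j : ℕ) : C)) * (finrank C (Nsp (θ j)) : C) = (D : C) := by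
      rw [← Nat.cast_mul]
      exact congrArg _ (hdD j)
    have h2 : ((e j).natAbs : C) * θ j Z = e j • ζ j Z := by
      rw [zsmul_eq_mul]
      by_cases hj : 0 ≤ e j
      · have h3 : θ j Z = ζ j Z := if_pos hj
        have h4 : (((e j).natAbs : ℤ) : C) = (e j : C) := by rw [Int.natAbs_of_nonneg hj]
        rw [h3, ← h4, Int.cast_natCast]
      · have h3 : θ j Z = -ζ j Z := if_neg hj
        have h4 : (((e j).natAbs : ℤ) : C) = ((-e j : ℤ) : C) := by
          rw [Int.ofNat_natAbs_of_nonpos (le_of_lt (not_le.1 hj))]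
        rw [Int.cast_natCast, Int.cast_neg] at h4
        rw [h3, h4, neg_mul_neg]
    rw [Nat.cast_mul, ← h2, ← h1]
    ring
  have hcl : ∀ X (hX : X ∈ 𝔩), c ⟨X, hle hX⟩ = 0 := by
    intro X hX
    obtain ⟨Z, hZ, hZc, hXZ⟩ := hDec k V 𝔤 hlie hnd hcen X (hle hX)
    have hbr : ∀ Y ∈ Submodule.span k {T : End k V | ∃ A ∈ 𝔤, ∃ B ∈ 𝔤, T = A * B - B * A},
        Y ∈ 𝔩 := by
      intro Y hY
      refine Submodule.span_le.2 ?_ hY
      rintro _ ⟨A, hA, B, hB, rfl⟩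
      obtain ⟨A', hA', hAc⟩ := hsplit A hA
      obtain ⟨B', hB', hBc⟩ := hsplit B hB
      have h1 := hlie' A' hA' B' hB'
      have h2 := hAc B hB
      have h3 := hBc A' (hle hA')
      have h4 : A * B - B * A = A' * B' - B' * A' := by
        have h5 : A * B - B * A = ((A - A') * B - B * (A - A')) + (A' * B - B * A') := by
          rw [sub_mul, mul_sub]
          abel
        have h6 : A' * B - B * A' = (A' * B' - B' * A') - ((B - B') * A' - A' * (B - B')) := by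
          rw [sub_mul, mul_sub]
          abel
        rw [h5, h6, h2, h3, sub_self, sub_self, zero_add, sub_zero]
      change A * B - B * A ∈ 𝔩
      rw [h4]
      exact h1
    have hZ𝔩 : Z ∈ 𝔩 := by
      have h1 : Z = X - (X - Z) := by abel
      rw [h1]
      exact 𝔩.sub_mem hX (hbr _ hXZ)
    have h0 : c ⟨Z, hZ⟩ = 0 := by
      have h1 := hcZ ⟨Z, hZ, hZc⟩
      rw [he ⟨Z, hZ, hZc⟩ hZ𝔩, mul_zero] at h1
      exact h1
    have h2 : c ⟨X, hle hX⟩ = c ⟨Z, hZ⟩ := by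
      refine Finset.sum_congr rfl fun j _ => ?_
      obtain ⟨hX', hX0⟩ := ch_span (θ := θ j) hlie hc hXZ
      have h3 := ch_add (θ := θ j) hc ⟨Z, hZ⟩ ⟨X - Z, hX'⟩
      rw [hX0, add_zero] at h3
      rw [← h3]
      congr 2
      refine Subtype.ext ?_
      change X = Z + (X - Z)
      abel
    rw [h2, h0]
  -- the tensors
  obtain ⟨m, δ, hδ, hδc⟩ := hcW
  obtain ⟨v, hv⟩ : ∃ v, δ v ≠ 0 := by
    by_contra hcon
    push Not at hcon
    exact hδ (MultilinearMap.ext hcon)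
  have hZ0 : c ⟨Z₁.1, Z₁.2.1⟩ * δ v = 0 := by
    rw [← Module.forall_dual_apply_eq_zero_iff k]
    intro π
    let φ : Tensor k V m := π.compMultilinearMap δ
    have hφ : ∀ X : 𝔤, ∀ v, ∑ l, φ (Function.update v l (lie X.1 (v l))) = π (c X * δ v) := by
      intro X v
      rw [← hδc X v, map_sum]
      rfl
    have h1 := hT m φ (fun X hX v => by
      rw [hφ ⟨X, hle hX⟩ v, hcl X hX, zero_mul, map_zero]) Z₁.1 Z₁.2.1 v
    rw [hφ ⟨Z₁.1, Z₁.2.1⟩ v] at h1
    exact h1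
  have h1 := hcZ Z₁
  rcases mul_eq_zero.1 hZ0 with h2 | h2
  · rw [h2] at h1
    rcases mul_eq_zero.1 h1.symm with h3 | h3
    · exact absurd (Nat.cast_eq_zero.1 h3) hD0
    · exact h3
  · exact absurd h2 hv

/-- The subalgebra contains an element with as many independent eigenvalues as the algebra. -/
theorem main_lin (hW : S_WADD) (hD : S_WDET) (hL : S_LEFT) (hR : S_RIGHT) (hA : S_AFF)
    (hDec : S_DEC) {𝔤 𝔩 : Submodule k (End k V)} (hle : 𝔩 ≤ 𝔤) (hlie : IsLie 𝔤) (hlie' : IsLie 𝔩)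
    (hnd : NonDeg 𝔤)
    (hcen : ∀ B ∈ 𝔤, (∀ X ∈ 𝔤, B * X = X * B) →
      (∀ Y ∈ 𝔤, (∀ X ∈ 𝔤, Y * X = X * Y) → LinearMap.trace k V (B * Y) = 0) → B = 0)
    (hsplit : ∀ X ∈ 𝔤, ∃ A ∈ 𝔩, ∀ Y ∈ 𝔤, (X - A) * Y = Y * (X - A))
    (hT : ∀ (m : ℕ) (φ : Tensor k V m), (∀ X ∈ 𝔩, KillsTensor X φ) → ∀ X ∈ 𝔤, KillsTensor X φ)
    {X₀ : End k V} (hX₀ : X₀ ∈ 𝔤) {r : ℕ} (x : Fin r → C)
    (hx : ∀ j, aeval (x j) X₀.charpoly = 0)
    (hind : ∀ e : Fin r → ℤ, ∑ j, e j • x j = 0 → e = 0) :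
    ∃ X ∈ 𝔩, ∃ y : Fin r → C, (∀ j, aeval (y j) X.charpoly = 0) ∧
      ∀ e : Fin r → ℤ, ∑ j, e j • y j = 0 → e = 0 := by
  classical
  have h1 := fun j => hL k C V X₀ (cent 𝔤) (fun Z hZ => hZ.2 X₀ hX₀)
    (fun Z hZ Y hY => hZ.2 Y hY.1) (x j) (hx j)
  choose f ζ hf hfx hζ using h1
  obtain ⟨A, hA𝔩, hAc⟩ := hsplit X₀ hX₀
  let Z₁ : cent 𝔤 := ⟨X₀ - A, 𝔤.sub_mem hX₀ (hle hA𝔩), hAc⟩
  let U : Submodule k (End k V) := cent 𝔤 ⊓ 𝔩
  let ι : U →ₗ[k] cent 𝔤 := Submodule.inclusion inf_le_left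
  have hUfin : FiniteDimensional k U := inferInstance
  by_contra hcon
  have h2 : ∀ z : U, ∃ e : Fin r → ℤ, e ≠ 0 ∧
      ∑ j, e j • ((x j - ζ j Z₁) + (ζ j ∘ₗ ι) z) = 0 := by
    intro z
    by_contra hz
    push Not at hz
    refine hcon ⟨A + z.1, 𝔩.add_mem hA𝔩 z.2.2, fun j => (x j - ζ j Z₁) + (ζ j ∘ₗ ι) z,
      fun j => root_of_functional (hf j) fun v => ?_, fun e he => ?_⟩
    · have h3 : (A + z.1) v = X₀ v - Z₁.1 v + (ι z).1 v := by
        change A v + z.1 v = X₀ v - (X₀ v - A v) + z.1 v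
        rw [sub_sub_cancel]
      rw [h3, map_add, map_sub, hfx, hζ, hζ]
      change _ = (x j - ζ j Z₁ + ζ j (ι z)) * f j v
      ring
    · by_contra hne
      exact hz e hne he
  obtain ⟨e, he, hea, heh⟩ := hA k C U r (fun j => x j - ζ j Z₁) (fun j => ζ j ∘ₗ ι) h2
  have h3 := char_zero hW hD hR hDec hle hlie hlie' hnd hcen hsplit hT f hf ζ hζ e
    (fun Z hZ => heh ⟨Z.1, Z.2, hZ⟩) Z₁
  refine he (hind e ?_)
  have h4 : ∑ j, e j • x j = ∑ j, e j • (x j - ζ j Z₁) + ∑ j, e j • ζ j Z₁ := by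
    rw [← Finset.sum_add_distrib]
    exact Finset.sum_congr rfl fun j _ => by rw [← smul_add, sub_add_cancel]
  rw [h4, hea, h3, add_zero]

end main

end

end Pool.Agent.Helper49T
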