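import Pool.Agent.Y114.RM.Defs

/-!
# Characters of the centre and tensors: task statements

`k` is a field of characteristic zero, `C` an algebraically closed field which contains it, `V` a space of
finite dimension over `k`.
-/

set_option autoImplicit false

namespace Pool.Agent.Helper49T

open Module Pool.Agent.Y114.RM

/-- There is a nonzero multilinear form `δ` on `W`, with values in `C`, which is an eigenvector of the
operators `t g` (acting as derivations), with eigenvalues `c g`. -/
def Wt {k C W G : Type} [Field k] [Field C] [Algebra k C] [AddCommGroup W] [Module k W]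
    (t : G → End k W) (c : G → C) : Prop :=
  ∃ (m : ℕ) (δ : MultilinearMap k (fun _ : Fin m => W) C), δ ≠ 0 ∧
    ∀ g v, ∑ l, δ (Function.update v l (t g (v l))) = c g * δ v

/-- WADD: products of forms.
Proof. `δ` in `m` variables, `δ'` in `m'` variables; the form in `m + m'` variables is
`v ↦ δ (v ∘ Fin.castAdd m') * δ' (v ∘ Fin.natAdd m)`, for instance
`((LinearMap.mul' k C).compMultilinearMap (δ.domCoprod δ')).domDomCongr finSumFinEquiv`. It is not zero
(`C` is a field; choose `v`, `v'` with `δ v ≠ 0`, `δ' v' ≠ 0` and use `Fin.append`/`Fin.addCases`); the sum over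
`Fin (m + m')` splits by `Fin.sum_univ_add`. -/
def S_WADD : Prop := ∀ (k C W G : Type) [Field k] [Field C] [Algebra k C] [AddCommGroup W]
  [Module k W] (t : G → End k W) (c c' : G → C), Wt t c → Wt t c' → Wt t (fun g => c g + c' g)

/-- WDET: determinants. `N` is a `C`-subspace of the functionals on `W` with values in `C`, stable under the
operators `t g`.
Proof. Let `f 1, ..., f d` be a basis of `N` over `C` (`W →ₗ[k] C` is of finite dimension over `C` by
`Basis.constr`), and `δ (v) = det (f i (v j))` (`Matrix.detRowAlternating` over `C`, restricted to `k`, composed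
with the `k`-linear map `v ↦ (i ↦ f i v)`). `δ ≠ 0`: the `C`-span of the vectors `(f i v)_i`, `v ∈ W`, is `C ^ d` (a
linear functional which vanishes on it is a linear relation between the `f i`), so `d` of them form a
basis. If `f i ∘ t g = ∑ k, A k i f k` then `∑ j det (M with row j replaced by (M A) j) = trace A * det M`:
`det (M.updateRow j b) = cramer Mᵀ b j = (adjugate Mᵀ *ᵥ b) j` and `adjugate M * M = det M`; the trace of
`τ g` is `trace A` (`LinearMap.trace_eq_matrix_trace`). -/
def S_WDET : Prop := ∀ (k C W G : Type) [Field k] [Field C] [Algebra k C] [AddCommGroup W]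
  [Module k W] [FiniteDimensional k W] (t : G → End k W) (N : Submodule C (W →ₗ[k] C))
  (τ : G → End C N), (∀ g (f : N), ((τ g f : N) : W →ₗ[k] C) = (f : W →ₗ[k] C) ∘ₗ t g) →
  Wt t (fun g => LinearMap.trace C N (τ g))

/-- LEFT: common eigenfunctionals.
Proof. With a basis of `V`, `det (x - X₀) = 0` over `C` gives a row vector `f ≠ 0` with `f X₀ = x f`
(`Matrix.exists_vecMul_eq_zero_iff`). So the `C`-space of the functionals `f : V →ₗ[k] C` with
`f ∘ X₀ = x f` is not zero; it is stable under `f ↦ f ∘ Z`, `Z ∈ Z'`, which commute. Take a nonzero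
subspace of it, stable under all these operators, of minimal dimension: an eigenspace of one of the
operators in it is stable under the others, so it is everything, so all elements are common
eigenvectors. Linearity of `ζ`: `ζ Z = f (Z v₀) / f v₀`. -/
def S_LEFT : Prop := ∀ (k C V : Type) [Field k] [Field C] [IsAlgClosed C] [Algebra k C]
  [AddCommGroup V] [Module k V] [FiniteDimensional k V] (X₀ : End k V) (Z' : Submodule k (End k V)),
  (∀ Z ∈ Z', Z * X₀ = X₀ * Z) → (∀ Z ∈ Z', ∀ Y ∈ Z', Z * Y = Y * Z) → ∀ x : C,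
  Polynomial.aeval x X₀.charpoly = 0 → ∃ (f : V →ₗ[k] C) (ζ : Z' →ₗ[k] C), f ≠ 0 ∧
    (∀ v, f (X₀ v) = x * f v) ∧ ∀ (Z : Z') (v : V), f (Z.1 v) = ζ Z * f v

/-- RIGHT: the characters on the dual space.
Proof. `N = (Dual k V →ₗ[k] C)` is a `C`-space of finite dimension (it is `V ⊗ C`) with the commuting
operators `T Z : u ↦ u ∘ Zᵗ`, that is `(T Z u) ξ = u (ξ ∘ Z)`. `f` defines the `C`-linear functional
`F u = ∑ i, f (b i) * u (b i ^*)` on `N` (a basis `b` of `V`), `F ≠ 0`, and `F (T Z u) = ζ Z * F u`. By
`Module.End.iSup_iInf_maxGenEigenspace_eq_top_of_iSup_maxGenEigenspace_eq_top_of_commute` (index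
type `Z'`) `N` is the sum of the spaces `⨅ Z, maxGenEigenspace (T Z) (χ Z)`; `F` is not zero on one of
them, say at `u`; `0 = F ((T Z - χ Z) ^ M u) = (ζ Z - χ Z) ^ M * F u`, so `χ = ζ`. This space is not zero
and stable under all `T Z`; a common eigenvector in it (minimal nonzero stable subspace, as in LEFT) has
the eigenvalues `ζ Z`. -/
def S_RIGHT : Prop := ∀ (k C V : Type) [Field k] [Field C] [IsAlgClosed C] [Algebra k C]
  [AddCommGroup V] [Module k V] [FiniteDimensional k V] (Z' : Submodule k (End k V)),
  (∀ Z ∈ Z', ∀ Y ∈ Z', Z * Y = Y * Z) → ∀ (f : V →ₗ[k] C) (ζ : Z' → C), f ≠ 0 →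
  (∀ (Z : Z') (v : V), f (Z.1 v) = ζ Z * f v) → ∃ u : Dual k V →ₗ[k] C, u ≠ 0 ∧
    ∀ (Z : Z') (ξ : Dual k V), u (ξ ∘ₗ Z.1) = ζ Z * u ξ

/-- AFF: a vector space over an uncountable field is not a countable union of proper affine subspaces.
Proof. Let `b i`, `i < N`, be a basis of `U` and `z t = ∑ i, t ^ (i + 1) • b i` for `t : k`. For each `t` choose
`e t`; the set of integer vectors is countable, so some `e ≠ 0` occurs for infinitely many `t`
(`Set.infinite...`, e.g. `exists_infinite_fiber`-type lemma or countable union of finite sets). The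
polynomial `∑ j e j a j + ∑ i T ^ (i + 1) * ∑ j e j h j (b i)` over `C` has infinitely many roots (`algebraMap k C`
is injective), so its coefficients are zero. -/
def S_AFF : Prop := ∀ (k C U : Type) [Field k] [Uncountable k] [Field C] [Algebra k C]
  [AddCommGroup U] [Module k U] [FiniteDimensional k U] (r : ℕ) (a : Fin r → C)
  (h : Fin r → (U →ₗ[k] C)), (∀ z : U, ∃ e : Fin r → ℤ, e ≠ 0 ∧ ∑ j, e j • (a j + h j z) = 0) →
  ∃ e : Fin r → ℤ, e ≠ 0 ∧ ∑ j, e j • a j = 0 ∧ ∀ z : U, ∑ j, e j • h j z = 0

/-- DEC: a reductive Lie algebra is the sum of its derived algebra and of its centre.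
Proof. Let `D` be the span of the brackets and `Z` the centre of `L`. If `B ∈ L` is orthogonal to `D` for
the trace form, `tr ([B, X] Y) = tr (B [X, Y]) = 0` for all `X, Y ∈ L`, so `[B, X] = 0` and `B ∈ Z`. So if `B ∈ L`
is orthogonal to `D + Z`, it is in `Z` and orthogonal to `Z`, so `B = 0` by the second hypothesis. If
`D + Z` were not `L`, there would be a linear functional on `L`, not zero, which is zero on `D + Z`; by
`NonDeg` it is `tr (B ·)` with `B ∈ L`, a contradiction. -/
def S_DEC : Prop := ∀ (k V : Type) [Field k] [AddCommGroup V] [Module k V] [FiniteDimensional k V]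
  (L : Submodule k (End k V)), IsLie L → NonDeg L →
  (∀ B ∈ L, (∀ X ∈ L, B * X = X * B) →
    (∀ Y ∈ L, (∀ X ∈ L, Y * X = X * Y) → LinearMap.trace k V (B * Y) = 0) → B = 0) →
  ∀ X ∈ L, ∃ Z ∈ L, (∀ Y ∈ L, Z * Y = Y * Z) ∧
    X - Z ∈ Submodule.span k {T : End k V | ∃ A ∈ L, ∃ B ∈ L, T = A * B - B * A}

end Pool.Agent.Helper49T
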