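import Pool.Agent.Helper49P.Tng
import Pool.Agent.Helper49T.Stm

/-!
# Tensors killed by the tangent space: task statements
-/

set_option autoImplicit false

namespace Pool.Agent.Helper49T

open Filter Topology Module Pool.Agent.Y114.RM Pool.Agent.Y114.TF Pool.Agent.Helper49P

/-- KN: vectors killed by a logarithm are fixed.
Proof. Let `‖x‖` be the maximum of the norms of the coordinates of a vector `x`. If all entries of `h - 1`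
have norm at most `ℓ⁻²`, the same is true for the powers of `h`, and `‖(h ^ a - 1) x‖ ≤ ℓ⁻² ‖x‖`
(ultrametric). For `u = (h - 1) φ` we have `(h ^ ℓ - 1) φ = ∑_{a < ℓ} h ^ a u = ℓ u + ∑_{a < ℓ} (h ^ a - 1) u`, so
`‖(h ^ ℓ - 1) φ‖ ≥ ℓ⁻¹ ‖u‖` (if `u ≠ 0` the second part has the norm `≤ ℓ⁻² ‖u‖ < ‖ℓ u‖`). By induction
`‖(g ^ (ℓ ^ k) - 1) φ‖ ≥ ℓ^(-k) ‖(g - 1) φ‖`. But `ℓ^(-k) (g ^ (ℓ ^ k) - 1) φ → Y φ = 0`. (One can also work in the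
normed algebra of matrices with the tools of the files `Helper49P/LOG`, `Helper49P/ALG`.) -/
def S_KN : Prop := ∀ (ℓ : ℕ) [Fact ℓ.Prime] (κ : Type) [Fintype κ] [DecidableEq κ]
  (g Y : Matrix κ κ ℚ_[ℓ]), (∀ a b, ‖(g - 1) a b‖ ≤ ((ℓ : ℝ)⁻¹) ^ 2) →
  (∀ a b, Tendsto (fun k : ℕ => (((ℓ : ℚ_[ℓ]) ^ k)⁻¹) * (g ^ (ℓ ^ k) - 1) a b) atTop
    (𝓝 (Y a b))) → ∀ φ : κ → ℚ_[ℓ], Y.mulVec φ = 0 → g.mulVec φ = φ

/-- KT: the tensors killed by the tangent space are Tate tensors.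
Proof. `F = Tensor ℚ_ℓ V m` is of finite dimension `N` over `ℚ_ℓ`; `Γ` acts on `F` by
`(γ ψ) (v) = ψ (fun l => grp (ρ γ⁻¹) (ρ γ) (v l))`. With a basis of `F` this is a continuous representation
`ρ'` on `Fin N → ℚ_ℓ` (the entries are polynomials in the entries of `ρ γ`, `ρ γ⁻¹`). Let
`Δ = Dl ρ ⊓ Dl ρ'` (`finite_Dl`; for `ρ'` take one block, `ι = Unit`). For `γ ∈ Δ` let `X` be the logarithm
(`S_LOG` for the matrices `Mx`, as in `alg_Dl`), `X ∈ tng ρ h1`. By `S_DER`, as in the proof of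
`Helper49P.kills_tng` (file `Kil.lean`, with the sequence `γ ^ (ℓ ^ j)` instead of `γ j ^ M`),
`ℓ^(-j) ((γ ^ (ℓ ^ j) ψ) v - ψ v) → - ∑ l, ψ (update v l (lie X (v l)))` for all `ψ ∈ F`, `v`. So the matrix of `γ` on
`F` has the logarithm `Y ψ = - X ψ`, and `Y φ = 0`; by KN `γ φ = φ`. -/
def S_KT : Prop := S_KN → S_LOG → S_DER → ∀ (h1 : S_TAN1) (ι : Type) [Fintype ι] [DecidableEq ι]
  (n : ι → ℕ) (ℓ : ℕ) [Fact ℓ.Prime] (Γ : Type) [Group Γ] [TopologicalSpace Γ]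
  [IsTopologicalGroup Γ] [CompactSpace Γ]
  (ρ : ∀ i, Representation ℚ_[ℓ] Γ (Fin (n i) → ℚ_[ℓ])),
  (∀ i, Continuous fun g => LinearMap.toMatrix' (ρ i g)) →
  ∀ (m : ℕ) (φ : Tensor ℚ_[ℓ] (∀ i, Fin (n i) → ℚ_[ℓ]) m),
  (∀ X ∈ tng ρ h1, KillsTensor X φ) → TateTensor (sumRep ρ) φ

end Pool.Agent.Helper49T
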