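import Pool.Agent.Helper49P.Fin
import Pool.Agent.Helper49T.Lin
import Pool.Agent.Helper49T.Stm2
import Pool.Agent.Helper49A.Conv
import Pool.Agent.Helper49T.Conn

/-!
# Elements of maximal rank from the Tate conjecture at one prime number
-/

set_option autoImplicit false
set_option linter.unusedSectionVars false
set_option linter.unusedVariables false

namespace Pool.Agent.Helper49T

open Pool.Agent.Y114.RM hiding comm mem_LT_of_semisimple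
open Filter Topology Module Pool.Agent.Y114.TF Pool.Agent.R913.Adj
  Pool.Agent.H204R3.GP Pool.Agent.R918.Ell Pool.Agent.Helper49N Pool.Agent
  Pool.Agent.R931.IR Pool.Agent.N203.RE Pool.Agent.Helper49C NumberField IsDedekindDomain
  Pool.Agent.Y114.GF Pool.Agent.Helper49P Pool.Agent.Helper49A

/-- The pieces of this part. -/
structure Pieces2 : Prop where
  kn : S_KN
  kt : S_KT
  wadd : S_WADD
  wdet : S_WDET
  left : S_LEFT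
  right : S_RIGHT
  aff : S_AFF
  dec : S_DEC

section indep

variable {ι : Type} [Fintype ι] [DecidableEq ι] {n : ι → ℕ} {ℓ : ℕ} [hℓ : Fact ℓ.Prime]
  {Γ : Type} [Group Γ] [TopologicalSpace Γ] [IsTopologicalGroup Γ] [CompactSpace Γ]
  {ρ : ∀ i, Representation ℚ_[ℓ] Γ (Fin (n i) → ℚ_[ℓ])}

/-- From an element of the tangent space to an element of the group. -/
theorem exists_elt (H : Pieces)
    (hρ : ∀ i, Continuous fun g => LinearMap.toMatrix' (ρ i g)) {r : ℕ}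
    {X : End ℚ_[ℓ] (∀ i, Fin (n i) → ℚ_[ℓ])} (hX : X ∈ tng ρ H.tan1) (x : Fin r → PadicAlgCl ℓ)
    (hx : ∀ j, Polynomial.aeval (x j) X.charpoly = 0)
    (hind : ∀ e : Fin r → ℤ, ∑ j, e j • x j = 0 → e = 0) :
    ∃ γ : Γ, IndependentEigenvalues ρ γ r := by
  obtain ⟨m, γ, hlog⟩ := exists_log H hρ hX
  have hℓ0 : ((ℓ : ℚ_[ℓ]) ^ m) ≠ 0 := pow_ne_zero _ (Nat.cast_ne_zero.2 hℓ.out.ne_zero)
  have hcp : ∀ Y : End ℚ_[ℓ] (VV n ℓ), (TM n ℓ Y).charpoly = Y.charpoly := fun Y =>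
    LinearMap.charpoly_toMatrix Y (bs n ℓ)
  obtain ⟨z, hz, hzi⟩ := H.eig ℓ (Ix n) (ph ρ γ) (((ℓ : ℚ_[ℓ]) ^ m) • TM n ℓ X)
    (fun a b => entry_log hlog a b) r
    (fun j => algebraMap ℚ_[ℓ] (PadicAlgCl ℓ) ((ℓ : ℚ_[ℓ]) ^ m) * x j)
    (fun j => root_smul _ _ _ (by
      rw [hcp]
      exact hx j)) (fun e he => hind e (by
      have h1 : ∑ j, e j • (algebraMap ℚ_[ℓ] (PadicAlgCl ℓ) ((ℓ : ℚ_[ℓ]) ^ m) * x j) =
          algebraMap ℚ_[ℓ] (PadicAlgCl ℓ) ((ℓ : ℚ_[ℓ]) ^ m) * ∑ j, e j • x j := by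
        rw [Finset.mul_sum]
        exact Finset.sum_congr rfl fun j _ => by rw [mul_smul_comm]
      rw [h1] at he
      rcases mul_eq_zero.1 he with h2 | h2
      · exact absurd ((map_eq_zero _).1 h2) hℓ0
      · exact h2))
  have hcomp : ∀ j, ∃ i, EigenvalueOf ρ i γ (z j) := fun j =>
    Pool.Agent.N144.PR.component_of ρ (by
      rw [← hcp]
      exact hz j)
  choose κ hκ using hcomp
  exact ⟨γ, κ, z, hκ, hzi⟩

/-- An element of the group of maximal rank, from the conditions in degree four and for the abelian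
part. -/
theorem exists_indep_elt2 (H : Pieces) (T : Pieces2)
    (hρ : ∀ i, Continuous fun g => LinearMap.toMatrix' (ρ i g))
    {𝔤 : Submodule ℚ_[ℓ] (End ℚ_[ℓ] (∀ i, Fin (n i) → ℚ_[ℓ]))} (h𝔤 : IsMotivic ρ 𝔤)
    (hss : FiniteIndexSemisimple (sumRep ρ)) (hE : EndTate (sumRep ρ) 𝔤)
    (hS : SqTate (sumRep ρ) 𝔤) (hA : AbTate (sumRep ρ) 𝔤)
    {r : ℕ} (hr : ∀ x ∈ 𝔤, r ≤ finrank ℚ_[ℓ] (cen 𝔤 x)) :
    ∃ γ : Γ, IndependentEigenvalues ρ γ r := by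
  obtain ⟨hle, hsplit⟩ := exists_split2 H.tan1 H.tan2 H.log H.alg H.der H.cart ρ hρ h𝔤 hss hE hS
  have hlie' := lie_tng (ρ := ρ) H.tan1 H.tan2
  obtain ⟨X₀, hX₀, x, hx, hind⟩ := H.gx H.pig H.sem H.cen ℚ_[ℓ] (PadicAlgCl ℓ)
    (∀ i, Fin (n i) → ℚ_[ℓ]) 𝔤 h𝔤.algebraic h𝔤.bracket h𝔤.nondeg r hr
  have hbr : ∀ X ∈ 𝔤, ∀ Y ∈ 𝔤, X * Y - Y * X ∈ tng ρ H.tan1 := by
    intro A hA B hB
    obtain ⟨A', hA', hAc⟩ := hsplit A hA
    obtain ⟨B', hB', hBc⟩ := hsplit B hB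
    have h1 := hlie' A' hA' B' hB'
    have h2 := hAc B hB
    have h3 := hBc A' (hle hA')
    have h5 : A * B - B * A = ((A - A') * B - B * (A - A')) + (A' * B - B * A') := by
      rw [sub_mul, mul_sub]
      abel
    have h6 : A' * B - B * A' = (A' * B' - B' * A') - ((B - B') * A' - A' * (B - B')) := by
      rw [sub_mul, mul_sub]
      abel
    rw [h5, h6, h2, h3, sub_self, sub_self, zero_add, sub_zero]
    exact h1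
  obtain ⟨X, hX, y, hy, hyi⟩ := main_lin (C := PadicAlgCl ℓ) T.wadd T.wdet T.left T.right T.aff
    T.dec hle h𝔤.bracket hlie' h𝔤.nondeg
    (fun B hB hBc hB0 => centre_nondeg h𝔤.algebraic h𝔤.nondeg
      ⟨hB, fun X hX => (hBc X hX).symm⟩
      fun Y hY => hB0 Y hY.1 fun X hX => (hY.2 X hX).symm)
    hsplit
    (fun m φ hφ => hA m φ (T.kt T.kn H.log H.der H.tan1 ι n ℓ Γ ρ hρ m φ hφ)
      fun X hX Y hY => hφ _ (hbr X hX Y hY))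
    hX₀ x hx hind
  exact exists_elt H hρ hX y hy hyi

end indep

section main

variable {ι : Type} [Fintype ι] [DecidableEq ι] {n : ι → ℕ}
  {w : ι → ℤ} {S : Set (HeightOneSpectrum (𝓞 ℚ))}
  {P : HeightOneSpectrum (𝓞 ℚ) → ι → Polynomial ℚ}
  {ρ : ∀ (ℓ : ℕ) [Fact ℓ.Prime], Reps Gal(AlgebraicClosure ℚ/ℚ) n ℓ}
  {𝔤 : Submodule ℚ (End ℚ (Betti n))}

/-- At the prime number `ℓ₀` there is an element of maximal rank. -/
theorem key2 (H : Pieces) (T : Pieces2)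
    (h : Realizations (MonoidHom.id Gal(AlgebraicClosure ℚ/ℚ)) w S P ρ 𝔤)
    (ℓ₀ : ℕ) [hℓ₀ : Fact ℓ₀.Prime] (hss : Semisimple (ρ ℓ₀)) (hT : TateMotivated (ρ ℓ₀) 𝔤) :
    ∃ r, RatRankLE 𝔤 r ∧ ∃ σ, IndependentEigenvalues (ρ ℓ₀) σ r := by
  have hcomp : CompactSpace Gal(AlgebraicClosure ℚ/ℚ) := compactGal ℚ
  have hE : EndTate (sumRep (ρ ℓ₀)) (scal ℓ₀ 𝔤) := endTate_of_tate (sumRep (ρ ℓ₀)) hT
  have hS : SqTate (sumRep (ρ ℓ₀)) (scal ℓ₀ 𝔤) :=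
    sqTate_of (sumRep (ρ ℓ₀)) fun φ hφ => (hT 4 φ).1 hφ
  have hA : AbTate (sumRep (ρ ℓ₀)) (scal ℓ₀ 𝔤) := fun m φ hφ _ => (hT m φ).1 hφ
  obtain ⟨X, hX, hmin⟩ : ∃ X ∈ 𝔤, ∀ Y ∈ 𝔤, finrank ℚ (cen 𝔤 X) ≤ finrank ℚ (cen 𝔤 Y) := by
    have hne : (Set.range fun X : 𝔤 => finrank ℚ (cen 𝔤 X.1)).Nonempty :=
      ⟨_, ⟨⟨0, 𝔤.zero_mem⟩, rfl⟩⟩
    obtain ⟨X, hX⟩ := Nat.sInf_mem hne
    refine ⟨X.1, X.2, fun Y hY => ?_⟩
    change finrank ℚ (cen 𝔤 X.1) = _ at hX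
    rw [hX]
    exact Nat.sInf_le ⟨⟨Y, hY⟩, rfl⟩
  refine ⟨finrank ℚ (cen 𝔤 X), ⟨X, hX, le_rfl⟩, ?_⟩
  exact exists_indep_elt2 H T (h.continuous ℓ₀) (h.motivic ℓ₀) hss hE hS hA
    (H.dens ℓ₀ ι n 𝔤 (finrank ℚ (cen 𝔤 X)) hmin)

/-- There are infinitely many prime numbers with Frobenius tori of maximal rank. -/
theorem exists_maximal (h : Realizations (MonoidHom.id Gal(AlgebraicClosure ℚ/ℚ)) w S P ρ 𝔤)
    {c : ℕ} (hint : IntegralOutside S P c) (ℓ₀ : ℕ) [hℓ₀ : Fact ℓ₀.Prime] {r : ℕ}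
    {σ : Gal(AlgebraicClosure ℚ/ℚ)} (hσ : IndependentEigenvalues (ρ ℓ₀) σ r) (E : Finset ℕ)
    (hE : ∀ p ∈ E, p.Prime) : ∃ p, p ∉ E ∧ MaximalRankAt S P r p := by
  have hfin : {v : HeightOneSpectrum (𝓞 ℚ) | ∃ p ∈ E, Above v p}.Finite := by
    have h1 : {v : HeightOneSpectrum (𝓞 ℚ) | ∃ p ∈ E, Above v p} =
        ⋃ p ∈ E, {v : HeightOneSpectrum (𝓞 ℚ) | Above v p} := by
      ext v
      simp only [Set.mem_iUnion, exists_prop]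
      rfl
    rw [h1]
    exact Set.Finite.biUnion E.finite_toSet fun p hp => finite_above p (hE p hp)
  obtain ⟨v, hv, hv2, -⟩ := exists_indep (ρ ℓ₀) (h.continuous ℓ₀) w c
    (S ∪ {v | Above v ℓ₀} ∪ {v | ∃ p ∈ E, Above v p})
    ((h.finite.union (finite_above ℓ₀ hℓ₀.out)).union hfin) P
    (fun v hv i => ⟨h.good ℓ₀ v (fun h' => hv (Or.inl (Or.inl h')))
      (fun h' => hv (Or.inl (Or.inr h'))) i, hint v (fun h' => hv (Or.inl (Or.inl h'))) i⟩) σ r hσ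
    Set.univ isOpen_univ (Set.mem_univ _)
  obtain ⟨p, hp, hpv⟩ := exists_prime v
  exact ⟨p, fun h' => hv (Or.inr ⟨p, h', hpv⟩),
    maximal_at hp hpv (fun h' => hv (Or.inl (Or.inl h'))) hv2⟩

/-- The case of motives without further endomorphisms. -/
theorem main_blocks (h : Realizations (MonoidHom.id Gal(AlgebraicClosure ℚ/ℚ)) w S P ρ 𝔤)
    {c : ℕ} (hint : IntegralOutside S P c) (ℓ₀ : ℕ) [hℓ₀ : Fact ℓ₀.Prime] {r : ℕ}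
    (hr : RatRankLE 𝔤 r) {σ : Gal(AlgebraicClosure ℚ/ℚ)}
    (hσ : IndependentEigenvalues (ρ ℓ₀) σ r) (h₀ : OnlyBlockScalars (ρ ℓ₀))
    (ℓ : ℕ) [hℓ : Fact ℓ.Prime] : TateMotivated (ρ ℓ) 𝔤 ↔ ∀ i, OnlyScalars (ρ ℓ i) := by
  obtain ⟨p, hpE, hmax⟩ := exists_maximal h hint ℓ₀ hσ {ℓ, ℓ₀} (fun p hp => by
    rw [Finset.mem_insert, Finset.mem_singleton] at hp
    rcases hp with rfl | rfl
    · exact hℓ.out
    · exact hℓ₀.out)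
  have hpℓ : ℓ ≠ p := fun h' => hpE (by rw [← h']; exact Finset.mem_insert_self _ _)
  have hpℓ₀ : ℓ₀ ≠ p := fun h' => hpE (by
    rw [← h']
    exact Finset.mem_insert_of_mem (Finset.mem_singleton_self _))
  have hcomp : CompactSpace Gal(AlgebraicClosure ℚ/ℚ) := compactGal ℚ
  have hR : RankTheorem (ρ ℓ) 𝔤 r := main_place h r hr p hmax ℓ hpℓ
  have hR₀ : RankTheorem (ρ ℓ₀) 𝔤 r := main_place h r hr p hmax ℓ₀ hpℓ₀
  refine ⟨fun hT i => ?_, fun hirr => ?_⟩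
  · have h1 : OnlyBlockScalars (ρ ℓ) := fun Y hY =>
      blocks_of_rat ℓ (rat_commutant ℓ₀ (ρ ℓ₀) (h.motivic ℓ₀) h₀) Y (hR.tate.1 hT Y hY)
    exact onlyScalars_of_blockScalars (ρ ℓ) h1 i
  · obtain ⟨hpp, -, hpS, -, v₀, hv₀, hind⟩ := hmax
    obtain ⟨𝔥₀, hk₀, hred₀⟩ := hR₀.rank
    have hab : ∀ q : ℕ, q.Prime → q ≠ p → ¬ Above v₀ q := fun q hq hne hv =>
      hne (Pool.Agent.R931.GD.above_inj hq hpp hv hv₀)
    have h1 : OnlyBlockScalars (ρ ℓ) := core (w := w) (ρ ℓ) (h.continuous ℓ) (ρ ℓ₀)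
      (h.continuous ℓ₀) S h.finite P (h.good ℓ) (h.good ℓ₀) hR.semisimple hR₀.semisimple
      (scalars ℓ₀ 𝔤) 𝔥₀ (h.motivic ℓ₀) (rank_scalars ℓ₀ hr) hk₀ hred₀ h₀ v₀ (hpS v₀ hv₀)
      (hab ℓ hℓ.out hpℓ) (hab ℓ₀ Fact.out hpℓ₀) hind hirr
    exact hR.tate.2 (endos_of_blockScalars (ρ ℓ) (scalars ℓ 𝔤) (IsMotivic.parts (h.motivic ℓ)) h1)

/-- Endomorphisms over the field of connectedness. -/
theorem main_sub (h : Realizations (MonoidHom.id Gal(AlgebraicClosure ℚ/ℚ)) w S P ρ 𝔤)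
    {c : ℕ} (hint : IntegralOutside S P c) (ℓ₀ : ℕ) [hℓ₀ : Fact ℓ₀.Prime] {r : ℕ}
    (hr : RatRankLE 𝔤 r) {σ : Gal(AlgebraicClosure ℚ/ℚ)}
    (hσ : IndependentEigenvalues (ρ ℓ₀) σ r) (Δ₀ : Subgroup Gal(AlgebraicClosure ℚ/ℚ))
    (hΔ₀ : Δ₀.FiniteIndex) (hconn : ConnectedOn Δ₀ (ρ ℓ₀))
    (ℓ : ℕ) [hℓ : Fact ℓ.Prime] : TateMotivated (ρ ℓ) 𝔤 ↔
      ∀ Y : End ℚ_[ℓ] (∀ i, Fin (n i) → ℚ_[ℓ]),
        (∀ γ ∈ Δ₀, sumRep (ρ ℓ) γ * Y = Y * sumRep (ρ ℓ) γ) → ∀ X ∈ scal ℓ 𝔤, X * Y = Y * X := by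
  have hcomp : CompactSpace Gal(AlgebraicClosure ℚ/ℚ) := compactGal ℚ
  have hR : RankTheorem (ρ ℓ) 𝔤 r := main_element h c hint r hr ℓ₀ ⟨σ, hσ⟩ ℓ
  rw [hR.tate]
  refine ⟨fun h1 Y hY => h1 Y ⟨Δ₀, hΔ₀, hY⟩, fun h1 Y hY => h1 Y fun γ hγ => ?_⟩
  exact endos_fixed' Δ₀ hΔ₀ (ρ ℓ) (h.continuous ℓ) (ρ ℓ₀) (h.continuous ℓ₀) S h.finite P
    (h.good ℓ) (h.good ℓ₀) hconn hY γ hγ

end main

end Pool.Agent.Helper49T
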