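import Pool.Agent.Helper49T.Stm2

/-!
# Piece KN: vectors killed by a logarithm are fixed
-/

set_option autoImplicit false

namespace Pool.Agent.Helper49T

open Filter Topology

namespace KNW

variable {ℓ : ℕ} [Fact ℓ.Prime] {κ : Type} [Fintype κ]

theorem mv_le {A : Matrix κ κ ℚ_[ℓ]} {c : ℝ} (hc : 0 ≤ c) (hA : ∀ a b, ‖A a b‖ ≤ c)
    (x : κ → ℚ_[ℓ]) : ‖A.mulVec x‖ ≤ c * ‖x‖ := by
  refine (pi_norm_le_iff_of_nonneg (by positivity)).2 fun i => ?_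
  change ‖∑ j, A i j * x j‖ ≤ _
  refine IsUltrametricDist.norm_sum_le_of_forall_le_of_nonneg (by positivity) fun j _ => ?_
  rw [norm_mul]
  exact mul_le_mul (hA i j) (norm_le_pi_norm x j) (norm_nonneg _) hc

theorem mul_le {A B : Matrix κ κ ℚ_[ℓ]} {c : ℝ} (hc : 0 ≤ c) (hA : ∀ a b, ‖A a b‖ ≤ 1)
    (hB : ∀ a b, ‖B a b‖ ≤ c) (a b : κ) : ‖(A * B) a b‖ ≤ c := by
  rw [Matrix.mul_apply]
  refine IsUltrametricDist.norm_sum_le_of_forall_le_of_nonneg hc fun j _ => ?_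
  rw [norm_mul]
  calc ‖A a j‖ * ‖B j b‖ ≤ 1 * c := mul_le_mul (hA a j) (hB j b) (norm_nonneg _) zero_le_one
    _ = c := one_mul c

variable [DecidableEq κ]

omit [Fintype κ] in
theorem one_le (a b : κ) : ‖(1 : Matrix κ κ ℚ_[ℓ]) a b‖ ≤ 1 := by
  rw [Matrix.one_apply]
  split_ifs
  · rw [norm_one]
  · rw [norm_zero]
    exact zero_le_one

omit [Fintype κ] in
theorem le_one {h : Matrix κ κ ℚ_[ℓ]} {c : ℝ} (hc1 : c ≤ 1) (hh : ∀ a b, ‖(h - 1) a b‖ ≤ c)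
    (a b : κ) : ‖h a b‖ ≤ 1 := by
  have h1 : h a b = (h - 1) a b + (1 : Matrix κ κ ℚ_[ℓ]) a b := by
    rw [Matrix.sub_apply, sub_add_cancel]
  rw [h1]
  exact (IsUltrametricDist.norm_add_le_max _ _).trans
    (max_le ((hh a b).trans hc1) (one_le a b))

theorem pow_le {h : Matrix κ κ ℚ_[ℓ]} {c : ℝ} (hc : 0 ≤ c) (hc1 : c ≤ 1)
    (hh : ∀ a b, ‖(h - 1) a b‖ ≤ c) (n : ℕ) : ∀ a b, ‖(h ^ n - 1) a b‖ ≤ c := by
  induction n with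
  | zero =>
    intro a b
    rw [pow_zero, sub_self, Matrix.zero_apply, norm_zero]
    exact hc
  | succ n ih =>
    intro a b
    have h1 : h ^ (n + 1) - 1 = h ^ n * (h - 1) + (h ^ n - 1) := by
      rw [pow_succ, mul_sub, mul_one]
      abel
    rw [h1, Matrix.add_apply]
    exact (IsUltrametricDist.norm_add_le_max _ _).trans
      (max_le (mul_le hc (le_one hc1 ih) hh a b) (ih a b))

theorem linv_pos : (0 : ℝ) < (ℓ : ℝ)⁻¹ :=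
  inv_pos.2 (by exact_mod_cast (Fact.out : ℓ.Prime).pos)

theorem linv_lt : (ℓ : ℝ)⁻¹ < 1 :=
  inv_lt_one_of_one_lt₀ (by exact_mod_cast (Fact.out : ℓ.Prime).one_lt)

theorem step {h : Matrix κ κ ℚ_[ℓ]} (hh : ∀ a b, ‖(h - 1) a b‖ ≤ ((ℓ : ℝ)⁻¹) ^ 2)
    (φ : κ → ℚ_[ℓ]) :
    (ℓ : ℝ)⁻¹ * ‖(h - 1).mulVec φ‖ ≤ ‖(h ^ ℓ - 1).mulVec φ‖ := by
  have hp : (0 : ℝ) < (ℓ : ℝ)⁻¹ := linv_pos
  have hl : (ℓ : ℝ)⁻¹ < 1 := linv_lt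
  have hc1 : ((ℓ : ℝ)⁻¹) ^ 2 ≤ 1 := pow_le_one₀ hp.le hl.le
  by_contra hcon
  push Not at hcon
  have hu0 : 0 < ‖(h - 1).mulVec φ‖ := by
    by_contra h0
    have h1 : ‖(h - 1).mulVec φ‖ = 0 := le_antisymm (not_lt.1 h0) (norm_nonneg _)
    rw [h1, mul_zero] at hcon
    exact absurd hcon (not_lt.2 (norm_nonneg _))
  -- the telescoping sum
  have e1 : (h ^ ℓ - 1).mulVec φ = ∑ a ∈ Finset.range ℓ, (h ^ a).mulVec ((h - 1).mulVec φ) := by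
    rw [← geom_sum_mul h ℓ, ← Matrix.mulVec_mulVec, Matrix.sum_mulVec]
  have e2 : ∑ a ∈ Finset.range ℓ, (h ^ a).mulVec ((h - 1).mulVec φ) =
      (ℓ : ℚ_[ℓ]) • (h - 1).mulVec φ +
        ∑ a ∈ Finset.range ℓ, (h ^ a - 1).mulVec ((h - 1).mulVec φ) := by
    have e3 : (ℓ : ℚ_[ℓ]) • (h - 1).mulVec φ = ∑ _a ∈ Finset.range ℓ, (h - 1).mulVec φ := by
      rw [Finset.sum_const, Finset.card_range, Nat.cast_smul_eq_nsmul]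
    rw [e3, ← Finset.sum_add_distrib]
    refine Finset.sum_congr rfl fun a _ => ?_
    rw [Matrix.sub_mulVec (h ^ a), Matrix.one_mulVec, add_sub_cancel]
  have e4 : ‖∑ a ∈ Finset.range ℓ, (h ^ a - 1).mulVec ((h - 1).mulVec φ)‖ ≤
      ((ℓ : ℝ)⁻¹) ^ 2 * ‖(h - 1).mulVec φ‖ := by
    refine (pi_norm_le_iff_of_nonneg (by positivity)).2 fun i => ?_
    rw [Finset.sum_apply]
    refine IsUltrametricDist.norm_sum_le_of_forall_le_of_nonneg (by positivity) fun a _ => ?_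
    exact (norm_le_pi_norm _ i).trans (mv_le (by positivity) (pow_le (by positivity) hc1 hh a) _)
  have e5 : ((ℓ : ℝ)⁻¹) ^ 2 * ‖(h - 1).mulVec φ‖ < (ℓ : ℝ)⁻¹ * ‖(h - 1).mulVec φ‖ := by
    apply mul_lt_mul_of_pos_right _ hu0
    nlinarith
  -- the norm of `ℓ u`
  have e6 : ‖(ℓ : ℚ_[ℓ]) • (h - 1).mulVec φ‖ < (ℓ : ℝ)⁻¹ * ‖(h - 1).mulVec φ‖ := by
    refine (pi_norm_lt_iff (by positivity)).2 fun i => ?_
    have e7 : ((ℓ : ℚ_[ℓ]) • (h - 1).mulVec φ) i = ((h ^ ℓ - 1).mulVec φ) i -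
        (∑ a ∈ Finset.range ℓ, (h ^ a - 1).mulVec ((h - 1).mulVec φ)) i := by
      rw [e1, e2, Pi.add_apply]
      ring
    rw [e7, sub_eq_add_neg]
    refine lt_of_le_of_lt (IsUltrametricDist.norm_add_le_max _ _) (max_lt ?_ ?_)
    · exact lt_of_le_of_lt (norm_le_pi_norm _ i) hcon
    · rw [norm_neg]
      exact lt_of_le_of_lt ((norm_le_pi_norm _ i).trans e4) e5
  rw [norm_smul, Padic.norm_p] at e6
  exact lt_irrefl _ e6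

theorem iter {g : Matrix κ κ ℚ_[ℓ]} (hg : ∀ a b, ‖(g - 1) a b‖ ≤ ((ℓ : ℝ)⁻¹) ^ 2)
    (φ : κ → ℚ_[ℓ]) (k : ℕ) :
    ((ℓ : ℝ)⁻¹) ^ k * ‖(g - 1).mulVec φ‖ ≤ ‖(g ^ (ℓ ^ k) - 1).mulVec φ‖ := by
  have hp : (0 : ℝ) < (ℓ : ℝ)⁻¹ := linv_pos
  have hc1 : ((ℓ : ℝ)⁻¹) ^ 2 ≤ 1 := pow_le_one₀ hp.le linv_lt.le
  induction k with
  | zero => simp
  | succ k ih =>
    have h1 := step (pow_le (by positivity) hc1 hg (ℓ ^ k)) φ
    rw [← pow_mul, ← pow_succ] at h1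
    refine le_trans ?_ h1
    rw [pow_succ', mul_assoc]
    exact mul_le_mul_of_nonneg_left ih hp.le

end KNW

open KNW in
/-- KN -/
theorem t_KN : S_KN := by
  intro ℓ _ κ _ _ g Y hg hY φ hφ
  have hℓ : (ℓ : ℚ_[ℓ]) ≠ 0 := by exact_mod_cast (Fact.out : ℓ.Prime).ne_zero
  have hlim : Tendsto (fun k : ℕ => (((ℓ : ℚ_[ℓ]) ^ k)⁻¹) • (g ^ (ℓ ^ k) - 1).mulVec φ) atTop
      (𝓝 (Y.mulVec φ)) := by
    rw [tendsto_pi_nhds]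
    intro i
    have h1 : ∀ k : ℕ, ((((ℓ : ℚ_[ℓ]) ^ k)⁻¹) • (g ^ (ℓ ^ k) - 1).mulVec φ) i =
        ∑ j, ((((ℓ : ℚ_[ℓ]) ^ k)⁻¹) * (g ^ (ℓ ^ k) - 1) i j) * φ j := by
      intro k
      change (((ℓ : ℚ_[ℓ]) ^ k)⁻¹) * (∑ j, (g ^ (ℓ ^ k) - 1) i j * φ j) = _
      rw [Finset.mul_sum]
      exact Finset.sum_congr rfl fun j _ => (mul_assoc _ _ _).symm
    have h2 : (Y.mulVec φ) i = ∑ j, Y i j * φ j := rfl
    simp only [h1, h2]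
    exact tendsto_finsetSum _ fun j _ => (hY i j).mul_const (φ j)
  rw [hφ] at hlim
  have hnorm := hlim.norm
  rw [norm_zero] at hnorm
  have hge : ∀ k : ℕ, ‖(g - 1).mulVec φ‖ ≤
      ‖(((ℓ : ℚ_[ℓ]) ^ k)⁻¹) • (g ^ (ℓ ^ k) - 1).mulVec φ‖ := by
    intro k
    rw [norm_smul, norm_inv, norm_pow, Padic.norm_p]
    have h1 := iter hg φ k
    have h2 : (0 : ℝ) < ((ℓ : ℝ)⁻¹) ^ k := pow_pos linv_pos k
    calc ‖(g - 1).mulVec φ‖ = (((ℓ : ℝ)⁻¹) ^ k)⁻¹ * (((ℓ : ℝ)⁻¹) ^ k * ‖(g - 1).mulVec φ‖) := by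
          rw [inv_mul_cancel_left₀ h2.ne']
      _ ≤ _ := mul_le_mul_of_nonneg_left h1 (inv_nonneg.2 h2.le)
  have h0 : ‖(g - 1).mulVec φ‖ ≤ 0 := ge_of_tendsto' hnorm hge
  have h3 : (g - 1).mulVec φ = 0 := norm_le_zero_iff.1 h0
  rw [Matrix.sub_mulVec, Matrix.one_mulVec, sub_eq_zero] at h3
  exact h3

end Pool.Agent.Helper49T
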