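import Pool.Agent.Helper49T.Stm2
import Pool.Agent.Helper49P.Kil

/-!
# Tensors killed by the tangent space are Tate tensors
-/

set_option autoImplicit false
set_option linter.unusedSectionVars false

namespace Pool.Agent.Helper49T

open Filter Topology Module Pool.Agent.Y114.RM Pool.Agent.Y114.TF Pool.Agent.Helper49P

noncomputable section

section expand

variable {ℓ : ℕ} [hℓ : Fact ℓ.Prime] {U : Type} [AddCommGroup U] [Module ℚ_[ℓ] U] {J : Type}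
  [Fintype J] [DecidableEq J] (b : Basis J ℚ_[ℓ] U)

/-- The coordinate forms. -/
def kf {m : ℕ} (j : Fin m → J) : MultilinearMap ℚ_[ℓ] (fun _ : Fin m => U) ℚ_[ℓ] :=
  (MultilinearMap.mkPiAlgebra ℚ_[ℓ] (Fin m) ℚ_[ℓ]).compLinearMap fun l => b.coord (j l)

theorem kf_apply {m : ℕ} (j : Fin m → J) (v : Fin m → U) :
    kf b j v = ∏ l, b.repr (v l) (j l) := by
  rw [kf, MultilinearMap.compLinearMap_apply, MultilinearMap.mkPiAlgebra_apply]
  rfl

theorem expand {m : ℕ} (φ : MultilinearMap ℚ_[ℓ] (fun _ : Fin m => U) ℚ_[ℓ]) (v : Fin m → U) :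
    φ v = ∑ j : Fin m → J, kf b j v * φ fun l => b (j l) := by
  have h1 : φ v = φ fun l => ∑ x : J, b.repr (v l) x • b x := by
    congr 1
    funext l
    exact (b.sum_repr (v l)).symm
  rw [h1, MultilinearMap.map_sum]
  refine Finset.sum_congr rfl fun j _ => ?_
  rw [MultilinearMap.map_smul_univ, kf_apply, smul_eq_mul]

/-- The matrix of the action on the tensors. -/
def gm (m : ℕ) (g : End ℚ_[ℓ] U) : Matrix (Fin m → J) (Fin m → J) ℚ_[ℓ] :=
  fun i j => kf b j fun l => g (b (i l))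

theorem gm_one (m : ℕ) : gm b m 1 = 1 := by
  ext i j
  have h1 : gm b m 1 i j = ∏ l, if i l = j l then (1 : ℚ_[ℓ]) else 0 := by
    change kf b j (fun l => (1 : End ℚ_[ℓ] U) (b (i l))) = _
    rw [kf_apply]
    refine Finset.prod_congr rfl fun l _ => ?_
    change b.repr (b (i l)) (j l) = _
    rw [b.repr_self, Finsupp.single_apply]
  rw [h1, Matrix.one_apply]
  by_cases h : i = j
  · rw [if_pos h]
    refine Finset.prod_eq_one fun l _ => ?_
    rw [if_pos (congrFun h l)]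
  · rw [if_neg h]
    obtain ⟨l, hl⟩ := Function.ne_iff.1 h
    exact Finset.prod_eq_zero (Finset.mem_univ l) (if_neg hl)

theorem gm_mul (m : ℕ) (g h : End ℚ_[ℓ] U) : gm b m (g * h) = gm b m h * gm b m g := by
  ext i k
  rw [Matrix.mul_apply]
  exact expand b ((kf b k).compLinearMap fun _ => g) (fun l => h (b (i l)))

theorem gm_pow (m : ℕ) (g : End ℚ_[ℓ] U) (k : ℕ) : gm b m (g ^ k) = gm b m g ^ k := by
  induction k with
  | zero => rw [pow_zero, pow_zero, gm_one]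
  | succ k ih => rw [pow_succ, gm_mul, ih, pow_succ']

theorem prod_close {α : Type} (s : Finset α) (x y : α → ℚ_[ℓ]) (ε : ℝ) (hε : 0 ≤ ε)
    (hx : ∀ a, ‖x a‖ ≤ 1) (hy : ∀ a, ‖y a‖ ≤ 1) (h : ∀ a, ‖x a - y a‖ ≤ ε) :
    ‖∏ a ∈ s, x a - ∏ a ∈ s, y a‖ ≤ ε := by
  classical
  induction s using Finset.induction_on with
  | empty => simpa using hε
  | insert a s ha ih =>
    rw [Finset.prod_insert ha, Finset.prod_insert ha]
    have h1 : x a * ∏ a ∈ s, x a - y a * ∏ a ∈ s, y a =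
        x a * (∏ a ∈ s, x a - ∏ a ∈ s, y a) + (x a - y a) * ∏ a ∈ s, y a := by ring
    rw [h1]
    refine (IsUltrametricDist.norm_add_le_max _ _).trans (max_le ?_ ?_)
    · rw [norm_mul]
      calc ‖x a‖ * ‖∏ a ∈ s, x a - ∏ a ∈ s, y a‖ ≤ 1 * ε :=
            mul_le_mul (hx a) ih (norm_nonneg _) zero_le_one
        _ = ε := one_mul _
    · rw [norm_mul, norm_prod]
      calc ‖x a - y a‖ * ∏ a ∈ s, ‖y a‖ ≤ ε * 1 :=
            mul_le_mul (h a) (Finset.prod_le_one (fun _ _ => norm_nonneg _) fun a _ => hy a)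
              (Finset.prod_nonneg fun _ _ => norm_nonneg _) hε
        _ = ε := mul_one _

/-- If the derivative of the action kills a tensor, it is fixed. -/
theorem fixed (hN : S_KN) (hD : S_DER) [FiniteDimensional ℚ_[ℓ] U] {m : ℕ} (g B : End ℚ_[ℓ] U)
    (hg : ∀ x y, ‖b.repr (g (b x)) y - b.repr (b x) y‖ ≤ ((ℓ : ℝ)⁻¹) ^ 2)
    (hB : ∀ ξ : End ℚ_[ℓ] U →ₗ[ℚ_[ℓ]] ℚ_[ℓ],
      Tendsto (fun k : ℕ => ((ℓ : ℚ_[ℓ]) ^ k)⁻¹ * ξ (g ^ (ℓ ^ k) - 1)) atTop (𝓝 (ξ B)))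
    (φ : MultilinearMap ℚ_[ℓ] (fun _ : Fin m => U) ℚ_[ℓ])
    (hφ : ∀ v, ∑ l, φ (Function.update v l (B (v l))) = 0) (v : Fin m → U) :
    φ (fun l => g (v l)) = φ v := by
  have hl1 : ((ℓ : ℝ)⁻¹) ^ 2 ≤ 1 := by
    have h4 : (1 : ℝ) < ℓ := by exact_mod_cast hℓ.out.one_lt
    exact pow_le_one₀ (by positivity) (inv_lt_one_of_one_lt₀ h4).le
  let Y : Matrix (Fin m → J) (Fin m → J) ℚ_[ℓ] := fun i j =>
    ∑ l, kf b j (Function.update (fun l => b (i l)) l (B (b (i l))))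
  have h1 : ∀ i j, ‖(gm b m g - 1) i j‖ ≤ ((ℓ : ℝ)⁻¹) ^ 2 := by
    intro i j
    rw [← gm_one b m]
    change ‖kf b j (fun l => g (b (i l))) - kf b j (fun l => (1 : End ℚ_[ℓ] U) (b (i l)))‖ ≤ _
    rw [kf_apply, kf_apply]
    have hy : ∀ x y : J, ‖b.repr (b x) y‖ ≤ 1 := by
      intro x y
      rw [b.repr_self, Finsupp.single_apply]
      split
      · rw [norm_one]
      · rw [norm_zero]
        exact zero_le_one
    refine prod_close _ _ _ _ (by positivity) (fun l => ?_) (fun l => hy _ _) fun l => hg _ _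
    have h2 : b.repr (g (b (i l))) (j l) =
        (b.repr (g (b (i l))) (j l) - b.repr (b (i l)) (j l)) + b.repr (b (i l)) (j l) := by ring
    rw [h2]
    exact (IsUltrametricDist.norm_add_le_max _ _).trans (max_le ((hg _ _).trans hl1) (hy _ _))
  have h2 : ∀ i j, Tendsto (fun k : ℕ => (((ℓ : ℚ_[ℓ]) ^ k)⁻¹) * (gm b m g ^ (ℓ ^ k) - 1) i j)
      atTop (𝓝 (Y i j)) := by
    intro i j
    have h3 := hD ℓ U (fun k => g ^ (ℓ ^ k)) B (fun k => (ℓ : ℚ_[ℓ]) ^ k)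
      (fun j => pow_ne_zero _ (Nat.cast_ne_zero.2 hℓ.out.ne_zero)) tendsto_ell hB m (kf b j)
      (fun l => b (i l))
    refine h3.congr fun k => ?_
    rw [← gm_pow, ← gm_one b m]
    rfl
  let f : (Fin m → J) → ℚ_[ℓ] := fun j => φ fun l => b (j l)
  have h3 : Y.mulVec f = 0 := by
    funext i
    have h4 : Y.mulVec f i = ∑ j, Y i j * f j := rfl
    rw [h4, Pi.zero_apply]
    have h5 : ∀ j, Y i j * f j =
        ∑ l, kf b j (Function.update (fun l => b (i l)) l (B (b (i l)))) * f j := fun j =>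
      Finset.sum_mul _ _ _
    rw [Finset.sum_congr rfl fun j _ => h5 j, Finset.sum_comm]
    rw [← hφ fun l => b (i l)]
    exact Finset.sum_congr rfl fun l _ => (expand b φ _).symm
  have h4 := hN ℓ (Fin m → J) (gm b m g) Y h1 h2 f h3
  have h5 : φ.compLinearMap (fun _ => g) = φ := by
    refine Basis.ext_multilinear (fun _ => b) fun i => ?_
    have h6 : (gm b m g).mulVec f i = φ fun l => g (b (i l)) := (expand b φ _).symm
    rw [h4] at h6
    exact h6.symm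
  exact congrArg (fun ψ : MultilinearMap ℚ_[ℓ] (fun _ : Fin m => U) ℚ_[ℓ] => ψ v) h5

end expand

section kt

variable {ι : Type} [Fintype ι] [DecidableEq ι] {n : ι → ℕ} {ℓ : ℕ} [hℓ : Fact ℓ.Prime]
  {Γ : Type} [Group Γ] {ρ : ∀ i, Representation ℚ_[ℓ] Γ (Fin (n i) → ℚ_[ℓ])}

theorem grp_pow (γ : Γ) (k : ℕ) : grp (sumRep ρ γ) (sumRep ρ γ⁻¹) ^ k =
    grp (sumRep ρ (γ ^ k)) (sumRep ρ (γ ^ k)⁻¹) := by
  induction k with
  | zero =>
    rw [pow_zero, pow_zero, inv_one, map_one]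
    exact LinearMap.ext fun w => Prod.ext rfl (LinearMap.ext fun u => rfl)
  | succ k ih =>
    rw [pow_succ, ih, pow_succ, mul_inv_rev, map_mul, map_mul]
    exact LinearMap.ext fun w => Prod.ext rfl (LinearMap.ext fun u => rfl)

theorem fixed_Dl (hN : S_KN) (h3 : S_LOG) (hD : S_DER) (h1 : S_TAN1) (m : ℕ)
    (φ : Tensor ℚ_[ℓ] (VV n ℓ) m) (hφ : ∀ X ∈ tng ρ h1, KillsTensor X φ) (γ : Γ) (hγ : γ ∈ Dl ρ)
    (v : Fin m → VV n ℓ × Dual ℚ_[ℓ] (VV n ℓ)) :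
    φ (fun l => grp (sumRep ρ γ) (sumRep ρ γ⁻¹) (v l)) = φ v := by
  obtain ⟨X', hX', hT⟩ := h3 ℓ (Mx ℓ (Ix n)) (one_le ℓ _) Γ (ph ρ) γ hγ
  obtain ⟨X, rfl⟩ := (TM n ℓ).surjective X'
  let b : Basis (Ix n ⊕ Ix n) ℚ_[ℓ] (VV n ℓ × Dual ℚ_[ℓ] (VV n ℓ)) :=
    (bs n ℓ).prod (bs n ℓ).dualBasis
  have hp : Tendsto (fun j : ℕ => (((ℓ : ℚ_[ℓ]) ^ j)⁻¹) • (ph ρ (γ ^ (ℓ ^ j)) - 1)) atTop
      (𝓝 (TM n ℓ X)) := by
    simp only [map_pow]
    exact hX'
  have hi : Tendsto (fun j : ℕ => (((ℓ : ℚ_[ℓ]) ^ j)⁻¹) • (ph ρ ((γ ^ (ℓ ^ j))⁻¹) - 1)) atTop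
      (𝓝 (TM n ℓ (-X))) := by
    rw [map_neg]
    exact tendsto_inv (a := fun j => ph ρ (γ ^ (ℓ ^ j))) (a' := fun j => ph ρ ((γ ^ (ℓ ^ j))⁻¹))
      (fun j => by rw [← map_mul, mul_inv_cancel, map_one])
      (fun j => by rw [← map_mul, inv_mul_cancel, map_one]) hp
  let P1 : End ℚ_[ℓ] (VV n ℓ) →ₗ[ℚ_[ℓ]] End ℚ_[ℓ] (VV n ℓ × Dual ℚ_[ℓ] (VV n ℓ)) :=
    { toFun := fun X => X.prodMap 0
      map_add' := fun X Y => by
        refine LinearMap.ext fun w => Prod.ext rfl ?_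
        change (0 : Dual ℚ_[ℓ] (VV n ℓ)) = 0 + 0
        rw [add_zero]
      map_smul' := fun c X => by
        refine LinearMap.ext fun w => Prod.ext rfl ?_
        change (0 : Dual ℚ_[ℓ] (VV n ℓ)) = c • 0
        rw [smul_zero] }
  let P2 : End ℚ_[ℓ] (VV n ℓ) →ₗ[ℚ_[ℓ]] End ℚ_[ℓ] (VV n ℓ × Dual ℚ_[ℓ] (VV n ℓ)) :=
    { toFun := fun X => (0 : End ℚ_[ℓ] (VV n ℓ)).prodMap X.dualMap
      map_add' := fun X Y => by
        refine LinearMap.ext fun w => Prod.ext ?_ ?_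
        · change (0 : VV n ℓ) = 0 + 0
          rw [add_zero]
        · exact LinearMap.ext fun u => map_add w.2 _ _
      map_smul' := fun c X => by
        refine LinearMap.ext fun w => Prod.ext ?_ ?_
        · change (0 : VV n ℓ) = c • 0
          rw [smul_zero]
        · exact LinearMap.ext fun u => map_smul w.2 _ _ }
  have hgrp : ∀ g g' : End ℚ_[ℓ] (VV n ℓ), grp g g' - 1 = P1 (g - 1) + P2 (g' - 1) := by
    intro g g'
    refine LinearMap.ext fun w => Prod.ext ?_ ?_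
    · change g w.1 - w.1 = (g w.1 - w.1) + 0
      rw [add_zero]
    · refine LinearMap.ext fun u => ?_
      change w.2 (g' u) - w.2 u = 0 + w.2 (g' u - u)
      rw [map_sub, zero_add]
  have hlie : ∀ Y : End ℚ_[ℓ] (VV n ℓ), lie Y = P1 Y - P2 Y := by
    intro Y
    refine LinearMap.ext fun w => Prod.ext ?_ ?_
    · change Y w.1 = Y w.1 - 0
      rw [sub_zero]
    · refine LinearMap.ext fun u => ?_
      change -(w.2 (Y u)) = 0 - w.2 (Y u)
      rw [zero_sub]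
  have hcont : ∀ (η : End ℚ_[ℓ] (VV n ℓ) →ₗ[ℚ_[ℓ]] ℚ_[ℓ]) (a : ℕ → Γ) (Y : End ℚ_[ℓ] (VV n ℓ)),
      Tendsto (fun j : ℕ => (((ℓ : ℚ_[ℓ]) ^ j)⁻¹) • (ph ρ (a j) - 1)) atTop (𝓝 (TM n ℓ Y)) →
      Tendsto (fun j : ℕ => (((ℓ : ℚ_[ℓ]) ^ j)⁻¹) * η (sumRep ρ (a j) - 1)) atTop (𝓝 (η Y)) := by
    intro η a Y h
    let η' : Mx ℓ (Ix n) →ₗ[ℚ_[ℓ]] ℚ_[ℓ] := η ∘ₗ (TM n ℓ).symm.toLinearMap
    have hc : Continuous η' := LinearMap.continuous_of_finiteDimensional η'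
    have h2 := (hc.tendsto _).comp h
    have h3 : η' (TM n ℓ Y) = η Y := by
      change η ((TM n ℓ).symm (TM n ℓ Y)) = η Y
      rw [AlgEquiv.symm_apply_apply]
    rw [h3] at h2
    refine h2.congr fun j => ?_
    change η' ((((ℓ : ℚ_[ℓ]) ^ j)⁻¹) • (ph ρ (a j) - 1)) = _
    rw [map_smul, smul_eq_mul]
    congr 1
    change η ((TM n ℓ).symm (TM n ℓ (sumRep ρ (a j)) - 1)) = _
    rw [map_sub, AlgEquiv.symm_apply_apply, map_one]
  have hinv : γ⁻¹ ∈ Dl ρ := (Dl ρ).inv_mem hγ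
  refine fixed b hN hD (grp (sumRep ρ γ) (sumRep ρ γ⁻¹)) (lie X) ?_ ?_ φ (hφ X hT) v
  · intro x y
    have h4 : b.repr (grp (sumRep ρ γ) (sumRep ρ γ⁻¹) (b x)) y - b.repr (b x) y =
        b.repr ((grp (sumRep ρ γ) (sumRep ρ γ⁻¹) - 1) (b x)) y := by
      rw [LinearMap.sub_apply, map_sub, Finsupp.sub_apply]
      rfl
    rw [h4]
    have h5 : ∀ (δ : Γ), δ ∈ Dl ρ → ∀ a c : Ix n,
        ‖(bs n ℓ).repr ((sumRep ρ δ - 1) (bs n ℓ a)) c‖ ≤ ((ℓ : ℝ)⁻¹) ^ 2 := by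
      intro δ hδ a c
      refine le_trans (le_of_eq ?_) ((entry_le ℓ _ (ph ρ δ - 1) c a).trans hδ)
      congr 1
      change _ = (TM n ℓ (sumRep ρ δ) - 1) c a
      rw [← map_one (TM n ℓ), ← map_sub, TM, LinearMap.toMatrixAlgEquiv_apply]
    have h0 : (0 : ℝ) ≤ ((ℓ : ℝ)⁻¹) ^ 2 := by positivity
    rcases x with x | x
    · have e1 : (grp (sumRep ρ γ) (sumRep ρ γ⁻¹) - 1) (b (Sum.inl x)) =
          ((sumRep ρ γ - 1) (bs n ℓ x), 0) := by
        rw [hgrp]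
        have e2 : b (Sum.inl x) = (bs n ℓ x, 0) := by
          simp [b, Basis.prod_apply]
        rw [e2]
        refine Prod.ext ?_ ?_
        · change (sumRep ρ γ - 1) (bs n ℓ x) + 0 = _
          rw [add_zero]
        · change (0 : Dual ℚ_[ℓ] (VV n ℓ)) + (sumRep ρ γ⁻¹ - 1).dualMap 0 = 0
          rw [map_zero, add_zero]
      rw [e1]
      rcases y with y | y
      · rw [Basis.prod_repr_inl]
        exact h5 γ hγ x y
      · rw [Basis.prod_repr_inr, map_zero, Finsupp.zero_apply, norm_zero]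
        exact h0
    · have e1 : (grp (sumRep ρ γ) (sumRep ρ γ⁻¹) - 1) (b (Sum.inr x)) =
          (0, (sumRep ρ γ⁻¹ - 1).dualMap ((bs n ℓ).dualBasis x)) := by
        rw [hgrp]
        have e2 : b (Sum.inr x) = (0, (bs n ℓ).dualBasis x) := by
          simp [b, Basis.prod_apply]
        rw [e2]
        refine Prod.ext ?_ ?_
        · change (sumRep ρ γ - 1) (0 : VV n ℓ) + 0 = 0
          rw [map_zero, add_zero]
        · change (0 : Dual ℚ_[ℓ] (VV n ℓ)) + (sumRep ρ γ⁻¹ - 1).dualMap ((bs n ℓ).dualBasis x) = _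
          rw [zero_add]
      rw [e1]
      rcases y with y | y
      · rw [Basis.prod_repr_inl, map_zero, Finsupp.zero_apply, norm_zero]
        exact h0
      · rw [Basis.prod_repr_inr, Basis.dualBasis_repr, LinearMap.dualMap_apply,
          Basis.dualBasis_apply]
        exact h5 γ⁻¹ hinv y x
  · intro ξ
    have e1 := hcont (ξ ∘ₗ P1) _ _ hp
    have e2 := hcont (ξ ∘ₗ P2) _ _ hi
    have e3 := e1.add e2
    have e4 : (ξ ∘ₗ P1) X + (ξ ∘ₗ P2) (-X) = ξ (lie X) := by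
      rw [hlie, map_sub, LinearMap.comp_apply, LinearMap.comp_apply, map_neg, map_neg,
        sub_eq_add_neg]
    rw [e4] at e3
    refine e3.congr fun j => ?_
    rw [grp_pow, hgrp, map_add, mul_add]
    rfl

theorem t_KT : S_KT := by
  intro hN hL hD h1 ι _ _ n ℓ _ Γ _ _ _ _ ρ hρ m φ hφ
  exact ⟨Dl ρ, finite_Dl hρ, fun γ hγ v => fixed_Dl hN hL hD h1 m φ hφ γ hγ v⟩

end kt

end

end Pool.Agent.Helper49T
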