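import Pool.Agent.Helper49T.Stm

/-!
# LEFT and RIGHT: common eigenvectors
-/

set_option autoImplicit false

namespace Pool.Agent.Helper49T

open Module Pool.Agent.Y114.RM

/-- common eigenvector of commuting operators in a stable subspace -/
theorem common_eig {C N I : Type} [Field C] [IsAlgClosed C] [AddCommGroup N] [Module C N]
    [FiniteDimensional C N] (T : I → End C N) (hT : ∀ i j, T i * T j = T j * T i) :
    ∀ (d : ℕ) (E : Submodule C N), finrank C E = d → E ≠ ⊥ → (∀ i, ∀ u ∈ E, T i u ∈ E) →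
      ∃ u ∈ E, u ≠ 0 ∧ ∀ i, ∃ c : C, T i u = c • u := by
  intro d
  induction d using Nat.strong_induction_on with
  | _ d ih =>
    intro E hd hE hst
    by_cases h : ∀ i, ∃ c : C, ∀ u ∈ E, T i u = c • u
    · obtain ⟨u, hu, hu0⟩ := Submodule.exists_mem_ne_zero_of_ne_bot hE
      refine ⟨u, hu, hu0, fun i => ?_⟩
      obtain ⟨c, hc⟩ := h i
      exact ⟨c, hc u hu⟩
    · push Not at h
      obtain ⟨i, hi⟩ := h
      have : Nontrivial E := Submodule.nontrivial_iff_ne_bot.2 hE
      obtain ⟨c, hc⟩ := Module.End.exists_eigenvalue ((T i).restrict (hst i))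
      obtain ⟨v, hv⟩ := hc.exists_hasEigenvector
      have hv1 : T i v.1 = c • v.1 := by
        have := congrArg Subtype.val hv.apply_eq_smul
        exact this
      have hv0 : v.1 ≠ 0 := fun h0 => hv.2 (Subtype.ext h0)
      have hlt : E ⊓ (T i).eigenspace c < E := by
        refine lt_of_le_of_ne inf_le_left fun he => ?_
        obtain ⟨u, hu, hu'⟩ := hi c
        rw [← he] at hu
        exact hu' (Module.End.mem_eigenspace_iff.1 hu.2)
      obtain ⟨u, hu, hu0, hu'⟩ := ih _ (hd ▸ Submodule.finrank_lt_finrank_of_lt hlt)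
        (E ⊓ (T i).eigenspace c) rfl
        (fun h0 => hv0 (by
          have : v.1 ∈ E ⊓ (T i).eigenspace c := ⟨v.2, Module.End.mem_eigenspace_iff.2 hv1⟩
          rw [h0] at this
          exact this))
        (fun j u hu => ⟨hst j u hu.1, Module.End.mem_eigenspace_iff.2 (by
          have h1 : T i (T j u) = T j (T i u) := LinearMap.congr_fun (hT i j) u
          rw [h1, Module.End.mem_eigenspace_iff.1 hu.2, map_smul])⟩)
      exact ⟨u, hu.1, hu0, hu'⟩

/-- precomposition -/
def pre {k C V : Type} [Field k] [Field C] [Algebra k C] [AddCommGroup V] [Module k V]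
    (Z : End k V) : End C (V →ₗ[k] C) where
  toFun f := f ∘ₗ Z
  map_add' _ _ := rfl
  map_smul' _ _ := rfl

theorem t_LEFT : S_LEFT := by
  intro k C V _ _ _ _ _ _ _ X₀ Z' h1 h2 x hx
  classical
  -- a functional in the eigenspace
  obtain ⟨f0, hf0, hf0'⟩ : ∃ f : V →ₗ[k] C, f ≠ 0 ∧ ∀ v, f (X₀ v) = x * f v := by
    let b := finBasis k V
    set A := LinearMap.toMatrix b b X₀ with hA
    have hdet : (Matrix.scalar _ x - A.map (algebraMap k C)).det = 0 := by
      rw [← Matrix.eval_charpoly, Matrix.charpoly_map, hA, LinearMap.charpoly_toMatrix,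
        Polynomial.eval_map, ← Polynomial.aeval_def]
      exact hx
    obtain ⟨w, hw, hw'⟩ := Matrix.exists_vecMul_eq_zero_iff.2 hdet
    refine ⟨b.constr k w, ?_, ?_⟩
    · intro h
      apply hw
      funext i
      have := LinearMap.congr_fun h (b i)
      rw [Basis.constr_basis] at this
      exact this
    · intro v
      have e : (b.constr k w) ∘ₗ X₀ = x • b.constr k w := by
        refine b.ext fun j => ?_
        rw [LinearMap.comp_apply, LinearMap.smul_apply, Basis.constr_basis]
        have e1 : X₀ (b j) = ∑ i, A i j • b i := by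
          rw [hA]
          simp only [LinearMap.toMatrix_apply]
          exact (b.sum_repr (X₀ (b j))).symm
        rw [e1, map_sum]
        have e2 := congrFun hw' j
        rw [Matrix.vecMul_sub, Pi.sub_apply, Pi.zero_apply, sub_eq_zero] at e2
        rw [show x • w j = (Matrix.vecMul w (Matrix.scalar _ x)) j from by
          rw [Matrix.vecMul_eq_sum]
          simp [Matrix.diagonal_apply, mul_comm], e2, Matrix.vecMul, dotProduct]
        refine Finset.sum_congr rfl fun i _ => ?_
        rw [map_smul, Basis.constr_basis, Matrix.map_apply, Algebra.smul_def, mul_comm]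
      exact LinearMap.congr_fun e v
  obtain ⟨f, hfE, hf, hZ⟩ := common_eig (C := C) (N := V →ₗ[k] C) (fun Z : Z' => pre Z.1)
    (fun Z Y => by
      ext f v
      change f (Y.1 (Z.1 v)) = f (Z.1 (Y.1 v))
      have := LinearMap.congr_fun (h2 Z.1 Z.2 Y.1 Y.2) v
      exact congrArg f this.symm)
    _ ((pre X₀ : End C (V →ₗ[k] C)).eigenspace x) rfl
    (fun h0 => hf0 (by
      have : f0 ∈ (pre X₀ : End C (V →ₗ[k] C)).eigenspace x :=
        Module.End.mem_eigenspace_iff.2 (LinearMap.ext hf0')
      rw [h0] at this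
      exact this))
    (fun Z f hf => Module.End.mem_eigenspace_iff.2 (by
      have h3 := Module.End.mem_eigenspace_iff.1 hf
      ext v
      change f (Z.1 (X₀ v)) = x • f (Z.1 v)
      have h4 := LinearMap.congr_fun (h1 Z.1 Z.2) v
      have h5 : f (Z.1 (X₀ v)) = f (X₀ (Z.1 v)) := congrArg f h4
      rw [h5]
      exact LinearMap.congr_fun h3 (Z.1 v)))
  have hfx := Module.End.mem_eigenspace_iff.1 hfE
  obtain ⟨v0, hv0⟩ : ∃ v, f v ≠ 0 := by
    by_contra hne
    push Not at hne
    exact hf (LinearMap.ext hne)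
  refine ⟨f, ⟨⟨fun Z => (f v0)⁻¹ * f (Z.1 v0), ?_⟩, ?_⟩, hf, fun v => LinearMap.congr_fun hfx v, ?_⟩
  · intro Z Y
    simp [mul_add]
  · intro c Z
    simp
  · intro Z v
    obtain ⟨c, hc⟩ := hZ Z
    have hc' : ∀ v, f (Z.1 v) = c * f v := fun v => LinearMap.congr_fun hc v
    change f (Z.1 v) = (f v0)⁻¹ * f (Z.1 v0) * f v
    rw [hc' v, hc' v0]
    field_simp

theorem t_RIGHT : S_RIGHT := by
  intro k C V _ _ _ _ _ _ _ Z' h2 f ζ hf hζ
  classical
  let b := finBasis k V
  let T : Z' → End C (Dual k V →ₗ[k] C) := fun Z =>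
    pre (k := k) (C := C) (V := Dual k V) (Dual.transpose Z.1)
  have hT : ∀ (Z : Z') (u : Dual k V →ₗ[k] C) (ξ : Dual k V), T Z u ξ = u (ξ ∘ₗ Z.1) :=
    fun _ _ _ => rfl
  have hcomm : ∀ Z Y : Z', T Z * T Y = T Y * T Z := by
    intro Z Y
    ext u ξ
    change u ((ξ ∘ₗ Z.1) ∘ₗ Y.1) = u ((ξ ∘ₗ Y.1) ∘ₗ Z.1)
    congr 1
    ext v
    have := LinearMap.congr_fun (h2 Z.1 Z.2 Y.1 Y.2) v
    exact congrArg ξ this
  let F : (Dual k V →ₗ[k] C) →ₗ[C] C :=
    { toFun := fun u => ∑ i, f (b i) * u (b.coord i)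
      map_add' := fun u w => by
        simp [mul_add, Finset.sum_add_distrib]
      map_smul' := fun c u => by
        simp only [LinearMap.smul_apply, smul_eq_mul, RingHom.id_apply, Finset.mul_sum]
        refine Finset.sum_congr rfl fun i _ => ?_
        ring }
  have hF : ∀ u, F u = ∑ i, f (b i) * u (b.coord i) := fun _ => rfl
  have hFT : ∀ (Z : Z') u, F (T Z u) = ζ Z * F u := by
    intro Z u
    rw [hF, hF]
    have e1 : ∀ i, T Z u (b.coord i) = ∑ j, b.repr (Z.1 (b j)) i • u (b.coord j) := by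
      intro i
      rw [hT]
      have : b.coord i ∘ₗ Z.1 = ∑ j, b.repr (Z.1 (b j)) i • b.coord j := by
        refine b.ext fun l => ?_
        rw [LinearMap.comp_apply, Basis.coord_apply, LinearMap.sum_apply,
          Finset.sum_eq_single l]
        · simp
        · intro j _ hj
          simp [Ne.symm hj]
        · intro h
          exact absurd (Finset.mem_univ _) h
      rw [this, map_sum]
      refine Finset.sum_congr rfl fun j _ => ?_
      rw [map_smul]
    have e2 : ∀ j, ζ Z * f (b j) = ∑ i, b.repr (Z.1 (b j)) i • f (b i) := by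
      intro j
      rw [← hζ]
      conv_lhs => rw [← b.sum_repr (Z.1 (b j))]
      rw [map_sum]
      refine Finset.sum_congr rfl fun i _ => ?_
      rw [map_smul]
    simp only [e1, Finset.mul_sum]
    rw [Finset.sum_comm]
    refine Finset.sum_congr rfl fun j _ => ?_
    rw [← mul_assoc, e2, Finset.sum_mul]
    refine Finset.sum_congr rfl fun i _ => ?_
    rw [mul_smul_comm, smul_mul_assoc]
  have hF0 : F ≠ 0 := by
    obtain ⟨i, hi⟩ : ∃ i, f (b i) ≠ 0 := by
      by_contra hne
      push Not at hne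
      exact hf (b.ext hne)
    intro h0
    have h1 := LinearMap.congr_fun h0 ((Algebra.linearMap k C) ∘ₗ (Dual.eval k V (b i)))
    rw [hF] at h1
    have h3 : ∀ j, ((Algebra.linearMap k C) ∘ₗ (Dual.eval k V (b i))) (b.coord j) =
        if j = i then 1 else 0 := by
      intro j
      change algebraMap k C (b.repr (b i) j) = _
      rw [b.repr_self]
      by_cases h : j = i
      · rw [h, if_pos rfl, Finsupp.single_eq_same, map_one]
      · rw [if_neg h, Finsupp.single_eq_of_ne h, map_zero]
    simp only [h3] at h1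
    rw [Finset.sum_eq_single i (fun j _ hj => by rw [if_neg hj, mul_zero])
      (fun h => absurd (Finset.mem_univ _) h), if_pos rfl, mul_one] at h1
    exact hi h1
  have htop := Module.End.iSup_iInf_maxGenEigenspace_eq_top_of_iSup_maxGenEigenspace_eq_top_of_commute
    T (fun Z Y _ => hcomm Z Y) (fun Z => Module.End.iSup_maxGenEigenspace_eq_top (T Z))
  obtain ⟨χ, u, hu, hFu⟩ : ∃ χ : Z' → C, ∃ u ∈ ⨅ Z, (T Z).maxGenEigenspace (χ Z), F u ≠ 0 := by
    by_contra hne
    push Not at hne
    apply hF0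
    rw [← LinearMap.ker_eq_top, eq_top_iff, ← htop]
    refine iSup_le fun χ => ?_
    intro u hu
    exact hne χ u hu
  have hpow : ∀ (Z : Z') (c : C) (M : ℕ) u, F (((T Z - c • (1 : End C (Dual k V →ₗ[k] C))) ^ M : End C (Dual k V →ₗ[k] C)) u) =
      (ζ Z - c) ^ M * F u := by
    intro Z c M
    induction M with
    | zero => intro u; simp
    | succ M ih =>
      intro u
      rw [pow_succ, Module.End.mul_apply, ih, LinearMap.sub_apply, map_sub, hFT]
      simp only [LinearMap.smul_apply, Module.End.one_apply, map_smul, smul_eq_mul]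
      ring
  have hχ : ∀ Z, χ Z = ζ Z := by
    intro Z
    obtain ⟨M, hM⟩ := (Module.End.mem_maxGenEigenspace _ _ _).1 ((Submodule.mem_iInf _).1 hu Z)
    have h3 := hpow Z (χ Z) M u
    rw [hM, map_zero] at h3
    have h4 : (ζ Z - χ Z) ^ M = 0 := by
      rcases mul_eq_zero.1 h3.symm with h | h
      · exact h
      · exact absurd h hFu
    exact (sub_eq_zero.1 (eq_zero_of_pow_eq_zero h4)).symm
  obtain ⟨w, hwE, hw0, hw⟩ := common_eig T hcomm _ (⨅ Z, (T Z).maxGenEigenspace (χ Z)) rfl
    (fun h0 => hFu (by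
      rw [h0] at hu
      rw [(Submodule.mem_bot C).1 hu, map_zero]))
    (fun Y u hu => by
      rw [Submodule.mem_iInf] at hu ⊢
      intro Z
      exact Module.End.mapsTo_maxGenEigenspace_of_comm (hcomm Z Y) (χ Z) (hu Z))
  refine ⟨w, hw0, fun Z ξ => ?_⟩
  obtain ⟨c, hc⟩ := hw Z
  obtain ⟨M, hM⟩ := (Module.End.mem_maxGenEigenspace _ _ _).1 ((Submodule.mem_iInf _).1 hwE Z)
  have h5 : ∀ M : ℕ, ((T Z - χ Z • (1 : End C (Dual k V →ₗ[k] C))) ^ M : End C (Dual k V →ₗ[k] C)) w = (c - χ Z) ^ M • w := by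
    intro M
    induction M with
    | zero => simp
    | succ M ih =>
      rw [pow_succ', Module.End.mul_apply, ih, map_smul, LinearMap.sub_apply, hc]
      simp only [LinearMap.smul_apply, Module.End.one_apply]
      rw [← sub_smul, smul_smul, pow_succ]
  rw [h5 M] at hM
  have h6 : c = χ Z := by
    rcases smul_eq_zero.1 hM with h | h
    · exact sub_eq_zero.1 (eq_zero_of_pow_eq_zero h)
    · exact absurd h hw0
  have h7 := LinearMap.congr_fun hc ξ
  rw [hT] at h7
  rw [h7, h6, hχ]
  rfl

end Pool.Agent.Helper49T
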