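import Pool.Agent.Helper49T.LEFT

/-!
# RIGHT

`Pool.Agent.Helper49T.t_RIGHT : S_RIGHT` is proved in `LEFT.lean` (same lemma on common eigenvectors).
-/
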