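import Pool.Agent.Helper49T.Stm

/-!
# WADD: products of multilinear forms (helper39, project TO of helper49)
-/

set_option autoImplicit false

namespace Pool.Agent.Helper49T

open Module

namespace WADD39

/-- the product of two forms -/
noncomputable def prodForm {k C W : Type} [Field k] [Field C] [Algebra k C] [AddCommGroup W]
    [Module k W] {m m' : ℕ} (δ : MultilinearMap k (fun _ : Fin m => W) C)
    (δ' : MultilinearMap k (fun _ : Fin m' => W) C) :
    MultilinearMap k (fun _ : Fin (m + m') => W) C :=
  ((LinearMap.mul' k C).compMultilinearMap (δ.domCoprod δ')).domDomCongr finSumFinEquiv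

lemma prodForm_apply {k C W : Type} [Field k] [Field C] [Algebra k C] [AddCommGroup W]
    [Module k W] {m m' : ℕ} (δ : MultilinearMap k (fun _ : Fin m => W) C)
    (δ' : MultilinearMap k (fun _ : Fin m' => W) C) (v : Fin (m + m') → W) :
    prodForm δ δ' v = δ (fun i => v (Fin.castAdd m' i)) * δ' (fun i => v (Fin.natAdd m i)) := by
  unfold prodForm
  simp [MultilinearMap.domDomCongr_apply, MultilinearMap.domCoprod_apply]

lemma update_castAdd {W : Type} {m m' : ℕ} (v : Fin (m + m') → W) (l : Fin m) (x : W) :
    (fun i => Function.update v (Fin.castAdd m' l) x (Fin.castAdd m' i)) =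
      Function.update (fun i => v (Fin.castAdd m' i)) l x := by
  funext i
  by_cases h : i = l
  · subst h; simp
  · rw [Function.update_of_ne (fun h' => h (Fin.castAdd_injective m m' h')),
      Function.update_of_ne h]

lemma update_castAdd' {W : Type} {m m' : ℕ} (v : Fin (m + m') → W) (l : Fin m) (x : W) :
    (fun i => Function.update v (Fin.castAdd m' l) x (Fin.natAdd m i)) =
      (fun i => v (Fin.natAdd m i)) := by
  funext i
  rw [Function.update_of_ne]
  intro h
  have := congrArg Fin.val h
  simp at this
  omega

lemma update_natAdd {W : Type} {m m' : ℕ} (v : Fin (m + m') → W) (l : Fin m') (x : W) :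
    (fun i => Function.update v (Fin.natAdd m l) x (Fin.natAdd m i)) =
      Function.update (fun i => v (Fin.natAdd m i)) l x := by
  funext i
  by_cases h : i = l
  · subst h; simp
  · rw [Function.update_of_ne (fun h' => h (Fin.natAdd_injective m' m h')),
      Function.update_of_ne h]

lemma update_natAdd' {W : Type} {m m' : ℕ} (v : Fin (m + m') → W) (l : Fin m') (x : W) :
    (fun i => Function.update v (Fin.natAdd m l) x (Fin.castAdd m' i)) =
      (fun i => v (Fin.castAdd m' i)) := by
  funext i
  rw [Function.update_of_ne]
  intro h
  have := congrArg Fin.val h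
  simp at this
  omega

end WADD39

open WADD39 in
theorem t_WADD : S_WADD := by
  intro k C W G _ _ _ _ _ t c c' h h'
  obtain ⟨m, δ, h0, h1⟩ := h
  obtain ⟨m', δ', h0', h1'⟩ := h'
  refine ⟨m + m', prodForm δ δ', ?_, ?_⟩
  · intro hz
    apply h0
    ext v
    by_contra hv
    apply h0'
    ext v'
    by_contra hv'
    have := congrArg (fun f => f (Fin.append v v')) hz
    simp only [prodForm_apply, Fin.append_left, Fin.append_right, MultilinearMap.zero_apply] at this
    rcases mul_eq_zero.1 this with h | h
    · exact hv h
    · exact hv' h
  · intro g v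
    rw [Fin.sum_univ_add]
    simp only [prodForm_apply, update_castAdd, update_castAdd', update_natAdd, update_natAdd']
    rw [← Finset.sum_mul, ← Finset.mul_sum]
    have e1 := h1 g (fun i => v (Fin.castAdd m' i))
    have e2 := h1' g (fun i => v (Fin.natAdd m i))
    rw [e1, e2]
    ring

end Pool.Agent.Helper49T
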