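import Pool.Agent.Helper49T.Stm

/-!
# Project TO (helper49), piece WDET (helper4): determinants as multilinear forms and the trace
-/

set_option autoImplicit false

namespace Pool.Agent.Helper49T

open Module

namespace WDET4

theorem tr_det {C : Type} [Field C] {d : ℕ} (M A : Matrix (Fin d) (Fin d) C) :
    ∑ j, (M.updateRow j ((M * A) j)).det = A.trace * M.det := by
  have h1 : ∀ j, (M.updateRow j ((M * A) j)).det = (M.adjugate.transpose.mulVec ((M * A) j)) j := by
    intro j
    rw [← Matrix.cramer_transpose_apply, Matrix.cramer_eq_adjugate_mulVec, Matrix.adjugate_transpose]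
  have h2 : ∑ j, (M.updateRow j ((M * A) j)).det = ((M * A) * M.adjugate).trace := by
    rw [Matrix.trace]
    refine Finset.sum_congr rfl fun j _ => ?_
    rw [h1 j, Matrix.mulVec, Matrix.diag_apply, Matrix.mul_apply]
    refine Finset.sum_congr rfl fun i _ => ?_
    exact mul_comm _ _
  rw [h2, Matrix.trace_mul_comm, ← Matrix.mul_assoc, Matrix.adjugate_mul, Matrix.smul_mul,
    Matrix.one_mul, Matrix.trace_smul, smul_eq_mul, mul_comm]

theorem exists_det {C : Type} [Field C] {d : ℕ} (S : Set (Fin d → C))
    (hs : Submodule.span C S = ⊤) :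
    ∃ M : Fin d → (Fin d → C), (∀ j, M j ∈ S) ∧ (Matrix.of M).det ≠ 0 := by
  have hs' : ⊤ ≤ Submodule.span C S := hs.ge
  refine ⟨fun j => (Module.Basis.ofSpan hs').reindex
    ((Module.Basis.ofSpan hs').indexEquiv (Pi.basisFun C (Fin d))) j, ?_, ?_⟩
  · intro j
    show (Module.Basis.ofSpan hs').reindex
      ((Module.Basis.ofSpan hs').indexEquiv (Pi.basisFun C (Fin d))) j ∈ S
    rw [Module.Basis.reindex_apply]
    exact Module.Basis.ofSpan_subset hs' ⟨_, rfl⟩
  · have h2 := Module.Basis.isUnit_det (Pi.basisFun C (Fin d))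
      ((Module.Basis.ofSpan hs').reindex
        ((Module.Basis.ofSpan hs').indexEquiv (Pi.basisFun C (Fin d))))
    rw [Pi.basisFun_det] at h2
    exact h2.ne_zero

theorem span_top {C : Type} [Field C] {d : ℕ} (S : Set (Fin d → C))
    (h : ∀ a : Fin d → C, (∀ x ∈ S, ∑ i, a i * x i = 0) → ∀ i, a i = 0) :
    Submodule.span C S = ⊤ := by
  by_contra hne
  obtain ⟨a, ha, hle⟩ := Submodule.exists_le_ker_of_lt_top _ (lt_top_iff_ne_top.2 hne)
  apply ha
  have h1 : ∀ x : Fin d → C, a x = ∑ i, a (Pi.single i 1) * x i := by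
    intro x
    conv_lhs => rw [← Finset.univ_sum_single x]
    rw [map_sum]
    refine Finset.sum_congr rfl fun i _ => ?_
    have h2 : (Pi.single i (x i) : Fin d → C) = x i • Pi.single i (1 : C) := by
      rw [← Pi.single_smul, smul_eq_mul, mul_one]
    rw [h2, map_smul, smul_eq_mul, mul_comm]
  have h4 := h (fun i => a (Pi.single i 1)) (fun x hx => by
    have h3 : a x = 0 := LinearMap.mem_ker.1 (hle (Submodule.subset_span hx))
    rw [h1] at h3
    exact h3)
  refine LinearMap.ext fun x => ?_
  rw [h1, LinearMap.zero_apply]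
  exact Finset.sum_eq_zero fun i _ => by rw [show a (Pi.single i 1) = 0 from h4 i, zero_mul]

theorem li_zero {k C W : Type} [Field k] [Field C] [Algebra k C] [AddCommGroup W] [Module k W]
    (N : Submodule C (W →ₗ[k] C)) {d : ℕ} (f : Module.Basis (Fin d) C N)
    (a : Fin d → C) (h : ∀ w, ∑ i, a i * ((f i : N) : W →ₗ[k] C) w = 0) : ∀ i, a i = 0 := by
  have h1 : f.equivFun.symm a = 0 := by
    rw [Module.Basis.equivFun_symm_apply]
    apply Subtype.ext
    rw [Submodule.coe_sum]
    refine LinearMap.ext fun w => ?_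
    rw [LinearMap.sum_apply]
    exact h w
  have h2 : a = 0 := by
    have h3 := congrArg f.equivFun h1
    rw [LinearEquiv.apply_symm_apply, map_zero] at h3
    exact h3
  intro i
  rw [h2]
  rfl

end WDET4

open WDET4 in
theorem t_WDET : S_WDET := by
  intro k C W G _ _ _ _ _ _ t N τ hτ
  classical
  have hfin : Module.Finite C (W →ₗ[k] C) :=
    Module.Finite.equiv ((Module.finBasis k W).constr C)
  have hfinN : Module.Finite C N := inferInstance
  have hfree : Module.Free C N := Module.Free.of_divisionRing C N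
  set f := Module.finBasis C N with hf
  set d := finrank C N with hd
  let L : W →ₗ[k] (Fin d → C) := LinearMap.pi (fun i => ((f i : N) : W →ₗ[k] C))
  have hL : ∀ w i, L w i = ((f i : N) : W →ₗ[k] C) w := fun w i => rfl
  let δ : MultilinearMap k (fun _ : Fin d => W) C :=
    (((Matrix.detRowAlternating : (Fin d → C) [⋀^Fin d]→ₗ[C] C).toMultilinearMap).restrictScalars
      k).compLinearMap (fun _ => L)
  have hδ : ∀ v, δ v = (Matrix.of (fun j => L (v j))).det := fun v => rfl
  refine ⟨d, δ, ?_, ?_⟩
  · obtain ⟨M, hM, hdet⟩ := exists_det (Set.range L) (span_top _ fun a ha =>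
      li_zero N f a fun w => ha _ ⟨w, rfl⟩)
    choose v hv using hM
    intro h0
    have h1 : δ v = 0 := by rw [h0]; rfl
    apply hdet
    rw [hδ] at h1
    have h3 : (fun j => L (v j)) = M := funext hv
    rw [h3] at h1
    exact h1
  · intro g v
    set A := LinearMap.toMatrix f f (τ g) with hA
    have h1 : ∀ w, L (t g w) = Matrix.vecMul (L w) A := by
      intro w
      funext i
      have h2 : τ g (f i) = ∑ j, A j i • f j := by
        rw [hA]
        conv_lhs => rw [← f.sum_repr (τ g (f i))]
        refine Finset.sum_congr rfl fun j _ => ?_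
        rw [LinearMap.toMatrix_apply]
      have h3 := hτ g (f i)
      rw [hL]
      have h4 : ((f i : N) : W →ₗ[k] C) (t g w) = ((τ g (f i) : N) : W →ₗ[k] C) w := by
        rw [h3]
        rfl
      rw [h4, h2, Submodule.coe_sum, LinearMap.sum_apply, Matrix.vecMul, dotProduct]
      refine Finset.sum_congr rfl fun j _ => ?_
      rw [Submodule.coe_smul, LinearMap.smul_apply, smul_eq_mul, hL, mul_comm]
    show _ = LinearMap.trace C N (τ g) * δ v
    rw [LinearMap.trace_eq_matrix_trace C f (τ g), ← hA, hδ, ← tr_det]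
    refine Finset.sum_congr rfl fun l _ => ?_
    rw [hδ]
    congr 1
    ext j i
    rw [Matrix.updateRow_apply, Matrix.of_apply]
    by_cases hj : j = l
    · subst hj
      rw [Function.update_self, if_pos rfl, h1]
      rfl
    · rw [Function.update_of_ne hj, if_neg hj]
      rfl

end Pool.Agent.Helper49T
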