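import Pool.Agent.Helper49P.All
import Pool.Agent.Helper49T.Fin
import Pool.Agent.Helper49T.KN
import Pool.Agent.Helper49T.KT
import Pool.Agent.Helper49T.WADD
import Pool.Agent.Helper49T.WDET
import Pool.Agent.Helper49T.LEFT
import Pool.Agent.Helper49T.RIGHT
import Pool.Agent.Helper49T.AFF
import Pool.Agent.Helper49T.DEC

/-!
# The Tate conjecture at one prime number and at all prime numbers: all pieces
-/

set_option autoImplicit false

namespace Pool.Agent.Helper49T

/-- All pieces. -/
theorem pieces2 : Pieces2 := ⟨t_KN, t_KT, t_WADD, t_WDET, t_LEFT, t_RIGHT, t_AFF, t_DEC⟩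

end Pool.Agent.Helper49T
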